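import Pool.Agent.Helper6.VC.FBDefs

/-!
# Finite boundaries or replicable components: the definitions used in the statement
-/

set_option autoImplicit false
set_option linter.unusedSectionVars false
set_option linter.unusedVariables false

namespace Pool.Agent.Helper6.VC

open Set Pool.Agent.Helper5.DU Pool.Agent.Helper79.VC

variable {L : FirstOrder.Language.{0, 0}}

/-- **Replicable components.** Let `D` be the component of `c` in the Gaifman graph of `S` outside
`Q`. Some model `S'` of `T` and `φ` contains infinitely many copies of the piece `D ∪ Q` which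
have the same copy of `Q` and whose copies of `D` are different components of the Gaifman graph of
`S'` outside this copy of `Q`. The `i`-th copy is the image of `D ∪ Q` under `g i`. -/
def Replicable (T : L.Theory) (φ : FmI L 0) (S : L.Structure ℕ) (Q : Set ℕ) (c : ℕ) : Prop :=
  ∃ (S' : L.Structure ℕ) (g : ℕ → ℕ → ℕ), IsMod T φ S' ∧
    (∀ i, InjOn (g i) (cpt (gaif S) Q c ∪ Q)) ∧
    (∀ i, ∀ (n : ℕ) (R : L.Relations n) (v : Fin n → ℕ), (∀ k, v k ∈ cpt (gaif S) Q c ∪ Q) →
      (S.RelMap R v ↔ S'.RelMap R (fun k => g i (v k)))) ∧
    (∀ i j, ∀ q ∈ Q, g i q = g j q) ∧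
    (∀ i, g i '' cpt (gaif S) Q c = cpt (gaif S') (g i '' Q) (g i c)) ∧
    (∀ i j, i ≠ j → g i '' cpt (gaif S) Q c ≠ g j '' cpt (gaif S) Q c)

/-- **Finite boundaries or replicable components.** Whenever `f` embeds the model `A` of `T` and
`φ` in the model `S` of `T` and `φ`, elementarily for the formulas of the sequence `Ψ`, and `c` is
an element of `S` outside the image of `f`, either the component of `c` outside this image has
finitely many neighbours in it, or the component of `c` outside some finite subset `Q` of the image
is replicable. -/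
def FiniteOrReplicable (T : L.Theory) (φ : FmI L 0) (Ψ : ℕ → (n : ℕ) × FmI L n) : Prop :=
  ∀ A S : L.Structure ℕ, IsMod T φ A → IsMod T φ S → ∀ f : ℕ → ℕ, Elem Ψ A S f →
    ∀ c, c ∉ range f → (bdy (gaif S) (range f) c).Finite ∨
      ∃ Q : Set ℕ, Q.Finite ∧ Q ⊆ range f ∧ Replicable T φ S Q c

end Pool.Agent.Helper6.VC
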