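import Pool.Agent.Helper6.VC.UReflect
import Pool.Agent.Helper6.VC.UDefs
import Pool.Agent.Helper5.DU.DisjointPowersResult

/-!
# The dichotomy for theories with finite boundaries or replicable components
-/

set_option autoImplicit false
set_option linter.unusedSectionVars false
set_option linter.unusedVariables false

namespace Pool.Agent.Helper6.VC

open Set Pool.Agent.Helper5 Pool.Agent.Helper5.DU Pool.Agent.Helper6.Str Pool.Agent.Helper79.VC
  Pool.Agent.Helper97.VC

variable {L : FirstOrder.Language.{0, 0}}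

/-- replicable components are replicable at every level -/
theorem repLev_of_replicable {T : L.Theory} {φ : FmI L 0} {K : Set (L.Structure ℕ)}
    (hK : ∀ S, IsMod T φ S → S ∈ K) (d : Ordinal.{0}) {S : L.Structure ℕ} {Q : Set ℕ} {c : ℕ}
    (hQ : Q.Finite) (hc : c ∉ Q) (h : Replicable T φ S Q c) {A : Set ℕ} (hQA : Q ⊆ A) :
    RepLev K d S A c := by
  classical
  obtain ⟨S', g, hS', hinj, hrel, hQg, himg, hne⟩ := h
  obtain ⟨m, s, hs, hsQ⟩ : ∃ (m : ℕ) (s : Fin m → ℕ), Function.Injective s ∧ range s = Q := by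
    refine ⟨_, fun i => (hQ.toFinset.equivFin.symm i).1,
      fun i j hij => hQ.toFinset.equivFin.symm.injective (Subtype.ext hij), ?_⟩
    ext x
    constructor
    · rintro ⟨i, rfl⟩
      exact hQ.mem_toFinset.mp (hQ.toFinset.equivFin.symm i).2
    · intro hx
      exact ⟨hQ.toFinset.equivFin ⟨x, hQ.mem_toFinset.mpr hx⟩, by simp⟩
  have hsg : ∀ i, range (fun k => g 0 (s k)) = g i '' Q := by
    intro i
    rw [← hsQ, ← range_comp]
    congr 1
    funext k
    exact hQg 0 i (s k) (hsQ ▸ mem_range_self k)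
  refine ⟨m, s, S', fun k => g 0 (s k), range fun i => g i '' cpt (gaif S) Q c, hs,
    hsQ.trans_subset hQA, hK S' hS', ?_, ?_, ?_⟩
  · refine infinite_range_of_injective fun i j hij => ?_
    by_contra hcon
    exact hne i j hcon hij
  · rintro _ ⟨i, rfl⟩
    refine ⟨g i c, ?_, ?_⟩
    · rw [hsg i]
      rintro ⟨q, hq, hqc⟩
      exact hc (hinj i (Or.inr hq) (Or.inl (Pool.Agent.Helper97.VC.mem_cpt_self Q c)) hqc ▸ hq)
    · show g i '' cpt (gaif S) Q c = _
      rw [himg i, hsg i]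
  · rintro _ ⟨i, rfl⟩
    rw [hsQ]
    unfold PE
    rw [hsQ, hsg i]
    refine BFR.of_map (g i) (hinj i) (image_union _ _ _).symm (fun n R v hv => hrel i n R v hv) d ?_
    rintro _ ⟨k, rfl⟩
    have hk : s k ∈ Q := hsQ ▸ mem_range_self k
    exact ⟨Or.inr hk, hQg 0 i _ hk⟩

theorem finOrRep_of_elem [∀ n, IsEmpty (L.Functions n)] {T : L.Theory} {φ : FmI L 0}
    {K : Set (L.Structure ℕ)} (hKdef : ∀ S, S ∈ K ↔ IsMod T φ S)
    {d : Ordinal.{0}} (hd : d < om1) (hcl : ClosedLev K d) (Ψ : ℕ → (n : ℕ) × FmI L n)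
    (h : FiniteOrReplicable T φ Ψ) :
    ∃ g < om1, ∀ S ∈ K, FinOrRep K d S g := by
  let r : Rk := .sup fun n => rk (Ψ n).2
  refine ⟨max d (ordOf r), max_lt hd (ordOf_lt r), fun S hS A hAc hA c hc => ?_⟩
  obtain ⟨f, hf, hfA⟩ := exists_enum hAc (fun F hF c => by
    obtain ⟨c', hc', h⟩ := hA F hF c
    exact ⟨c', hc', h.mono bot_le⟩)
  have hK : pl S f ∈ K := by
    refine hcl S hS _ ?_
    have h4 : BFR S S univ A d ∅ := closed_rel hA d (le_max_left _ _) ∅ finite_empty
      (fun a ha => absurd ha (notMem_empty a))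
      (BFR.refl S univ d fun a ha => absurd ha (notMem_empty a))
    rw [← hfA] at h4
    exact BFR_pl' hf h4 fun a ha => absurd ha (notMem_empty a)
  have := h (pl S f) S ((hKdef _).mp hK) ((hKdef _).mp hS) f
    ⟨hf, fun n R v => Iff.rfl, fun k v => ?_⟩ c (by rw [hfA]; exact hc)
  · rw [hfA] at this
    rcases this with h1 | ⟨Q, hQ, hQA, h1⟩
    · exact Or.inl h1
    · exact Or.inr (repLev_of_replicable (fun S hS => (hKdef S).mpr hS) d hQ
        (fun hcQ => hc (hQA hcQ)) h1 hQA)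
  · refine sat_of_closedAt hA hf hfA (Ψ k).2 ?_ v
    refine le_trans ?_ (le_max_right _ _)
    exact Ordinal.le_iSup (fun n => ordOf (rk (Ψ n).2)) k

/-- the main dichotomy -/
theorem dichotomy_of_finOrRep (hc : Countable L.Symbols) [hrel : ∀ n, IsEmpty (L.Functions n)]
    (T : L.Theory) (φ : FmI L 0) (Ψ : ℕ → (n : ℕ) × FmI L n) (h : FiniteOrReplicable T φ Ψ) :
    (∃ g : ℕ → L.Structure ℕ, ∀ S : L.Structure ℕ, IsMod T φ S →
        ∃ n : ℕ, Nonempty (@FirstOrder.Language.Equiv L ℕ ℕ S (g n))) ∨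
    (∃ f : (ℕ → Bool) → L.Structure ℕ, (∀ x : ℕ → Bool, IsMod T φ (f x)) ∧
        (∀ x y : ℕ → Bool,
            Nonempty (@FirstOrder.Language.Equiv L ℕ ℕ (f x) (f y)) → x = y) ∧
        (∀ (n : ℕ) (R : L.Relations n) (a : Fin n → ℕ),
            IsClopen {x : ℕ → Bool | @FirstOrder.Language.Structure.RelMap L ℕ (f x) n R a})) := by
  have hcr : ∀ n, Countable (L.Relations n) := countable_relations hc
  let K : Set (L.Structure ℕ) := {S | IsMod T φ S}
  obtain ⟨hK, d, hd, hcl⟩ := exists_level hc T φ (K := K) fun S => Iff.rfl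
  obtain ⟨γ, hγ, hFB⟩ := finOrRep_of_elem (K := K) (fun S => Iff.rfl) hd hcl Ψ h
  by_cases hP : PerfK K
  · obtain ⟨f, hf1, hf2, hf3⟩ := hP
    exact Or.inr ⟨f, hf1, fun x y h => hf2 x y ((nonempty_equiv_iff _ _).mp h), hf3⟩
  · obtain ⟨g, hg⟩ := main_finOrRep K hK d hd hcl γ hγ hFB hP
    refine Or.inl ⟨g, fun S h1 => ?_⟩
    obtain ⟨n, hn⟩ := hg S h1
    exact ⟨n, (nonempty_equiv_iff S (g n)).mpr hn⟩

/-! ### special cases -/

/-- finite boundaries are a special case -/
theorem finiteOrReplicable_of_finiteBoundaries {T : L.Theory} {φ : FmI L 0}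
    {Ψ : ℕ → (n : ℕ) × FmI L n} (h : FiniteBoundaries T φ Ψ) : FiniteOrReplicable T φ Ψ :=
  fun A S hA hS f hf c hc => Or.inl (h A S hA hS f hf c hc)

open DisjointPowersResult in
/-- closure under infinite disjoint powers is a special case -/
theorem finiteOrReplicable_of_powers [∀ n, IsEmpty (L.Functions n)] {T : L.Theory} {φ : FmI L 0}
    (hpow : ∀ S S' : L.Structure ℕ, DisjointPower S S' → IsMod T φ S → IsMod T φ S')
    (Ψ : ℕ → (n : ℕ) × FmI L n) : FiniteOrReplicable T φ Ψ := by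
  intro A S hA hS f hf c hc
  refine Or.inr ⟨∅, finite_empty, empty_subset _, ?_⟩
  obtain ⟨e⟩ : Nonempty (ℕ × ℕ ≃ ℕ) := ⟨Nat.pairEquiv⟩
  let S' : L.Structure ℕ :=
    { funMap := fun f _ => isEmptyElim f
      RelMap := fun {n} R v => ∃ i, (∀ k, (e.symm (v k)).1 = i) ∧
        S.RelMap R (fun k => (e.symm (v k)).2) }
  have hS'def : ∀ (n : ℕ) (R : L.Relations n) (v : Fin n → ℕ), S'.RelMap R v ↔
      ∃ i, (∀ k, (e.symm (v k)).1 = i) ∧ S.RelMap R (fun k => (e.symm (v k)).2) :=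
    fun _ _ _ => Iff.rfl
  have hpw : DisjointPower S S' := by
    refine ⟨e, fun n R v => ?_⟩
    rw [hS'def]
    simp only [Equiv.symm_apply_apply]
  -- a tuple with all entries in copy `i`
  have hcopy : ∀ (i : ℕ) (n : ℕ) (R : L.Relations n) (v : Fin n → ℕ),
      S.RelMap R v ↔ S'.RelMap R (fun k => e (i, v k)) := by
    intro i n R v
    rw [hS'def]
    simp only [Equiv.symm_apply_apply]
    constructor
    · intro h
      exact ⟨i, fun _ => rfl, h⟩
    · rintro ⟨j, -, h⟩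
      exact h
  have hadj : ∀ (i : ℕ) (x y : ℕ), (gaif S).Adj x y → (gaif S').Adj (e (i, x)) (e (i, y)) := by
    rintro i x y ⟨hne, n, R, v, hv, ⟨k, hk⟩, ⟨l, hl⟩⟩
    refine ⟨fun h => hne ?_, n, R, fun k => e (i, v k), (hcopy i n R v).mp hv,
      ⟨k, by simp only [hk]⟩, ⟨l, by simp only [hl]⟩⟩
    have := e.injective h
    rw [Prod.mk.injEq] at this
    exact this.2
  have hadj' : ∀ (i : ℕ) (x z : ℕ), (gaif S').Adj (e (i, x)) z →
      ∃ y, z = e (i, y) ∧ (gaif S).Adj x y := by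
    rintro i x z ⟨hne, n, R, v, hv, ⟨k, hk⟩, ⟨l, hl⟩⟩
    obtain ⟨j, hj, hjv⟩ := (hS'def n R v).mp hv
    have hij : j = i := by
      rw [← hj k, hk]
      simp
    subst hij
    have hz : z = e (j, (e.symm z).2) := by
      have : e.symm z = (j, (e.symm z).2) := by
        rw [← hl]
        exact Prod.ext (hj l) rfl
      rw [← this]
      simp
    refine ⟨(e.symm z).2, hz, fun hxy => hne ?_, n, R, _, hjv, ⟨k, ?_⟩, ⟨l, ?_⟩⟩
    · rw [hz, ← hxy]
    · show (e.symm (v k)).2 = x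
      rw [hk]
      simp
    · show (e.symm (v l)).2 = (e.symm z).2
      rw [hl]
  have hcpt : ∀ i : ℕ, (fun x => e (i, x)) '' cpt (gaif S) ∅ c =
      cpt (gaif S') ∅ (e (i, c)) := by
    intro i
    apply Subset.antisymm
    · rintro _ ⟨x, hx, rfl⟩
      have hx' : Conn (gaif S) ∅ c x := hx
      show Conn (gaif S') ∅ (e (i, c)) (e (i, x))
      induction hx' with
      | refl => exact Relation.ReflTransGen.refl
      | tail h1 h2 ih =>
        exact Relation.ReflTransGen.tail (ih h1) ⟨hadj i _ _ h2.1, notMem_empty _, notMem_empty _⟩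
    · intro z hz
      have hz' : Conn (gaif S') ∅ (e (i, c)) z := hz
      induction hz' with
      | refl => exact ⟨c, Relation.ReflTransGen.refl, rfl⟩
      | tail h1 h2 ih =>
        obtain ⟨x, hx, rfl⟩ := ih h1
        obtain ⟨y, rfl, hy⟩ := hadj' i x _ h2.1
        exact ⟨y, Relation.ReflTransGen.tail hx ⟨hy, notMem_empty _, notMem_empty _⟩, rfl⟩
  refine ⟨S', fun i x => e (i, x), hpow S S' hpw hS, fun i x _ y _ hxy => ?_,
    fun i n R v _ => hcopy i n R v, fun i j q hq => absurd hq (notMem_empty q), fun i => ?_,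
    fun i j hij h => ?_⟩
  · have := e.injective hxy
    rw [Prod.mk.injEq] at this
    exact this.2
  · rw [image_empty]
    exact hcpt i
  · have h1 : e (i, c) ∈ (fun x => e (j, x)) '' cpt (gaif S) ∅ c := by
      rw [← h]
      exact ⟨c, Relation.ReflTransGen.refl, rfl⟩
    obtain ⟨x, -, hx⟩ := h1
    have h2 := e.injective hx
    rw [Prod.mk.injEq] at h2
    exact hij h2.1.symm

end Pool.Agent.Helper6.VC
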