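import Pool.Agent.VB.B

/-!
# Composition of back and forth relations over components, restriction and swapping
-/

set_option autoImplicit false
set_option linter.unusedSectionVars false
set_option linter.unusedVariables false

namespace Pool.Agent.Helper79.VC

open Set Pool.Agent.Helper5.DU Pool.Agent.Helper6.Str

variable {L : FirstOrder.Language.{0, 0}} {M N P : Type}

/-! ### (6c) composition -/

/-- A decomposition of a structure in blocks over a set `Q`. -/
structure Blocks {I : Type} (S : L.Structure M) (Q : Set M) (B : I → Set M) : Prop where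
  cover : ∀ x, x ∈ Q ∨ ∃ i, x ∈ B i
  disjQ : ∀ i, ∀ x ∈ B i, x ∉ Q
  disj : ∀ i j, ∀ x ∈ B i, x ∈ B j → i = j
  rel : ∀ (n : ℕ) (R : L.Relations n) (v : Fin n → M), S.RelMap R v →
    (∃ i, ∀ k, v k ∈ B i ∪ Q) ∨ ∀ k, v k ∈ Q

theorem BFR.blocks {I : Type} {S : L.Structure M} {S' : L.Structure N} {Q : Set M} {Q' : Set N}
    {B : I → Set M} {B' : I → Set N} (hB : Blocks S Q B) (hB' : Blocks S' Q' B')
    {pQ : Set (M × N)} (hpQ : AtEq S S' pQ) (hpQs : ∀ a ∈ pQ, a.1 ∈ Q ∧ a.2 ∈ Q')
    (hpQ1 : ∀ x ∈ Q, ∃ y, (x, y) ∈ pQ) (hpQ2 : ∀ y ∈ Q', ∃ x, (x, y) ∈ pQ)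
    {g : Ordinal.{0}} : ∀ {p : I → Set (M × N)}, (∀ i, ∀ a ∈ p i, a.1 ∈ B i ∧ a.2 ∈ B' i) →
    (∀ i, BFR S S' (B i ∪ Q) (B' i ∪ Q') g (pQ ∪ p i)) →
    BFR S S' univ univ g (pQ ∪ ⋃ i, p i) := by
  classical
  induction g using WellFoundedLT.induction with
  | _ g ih =>
    intro p hp h
    rw [BFR.def]
    refine ⟨⟨?_, ?_⟩, fun β hβ => ⟨fun x _ => ?_, fun y _ => ?_⟩⟩
    · -- equalities
      have hself : ∀ a ∈ pQ ∪ ⋃ i, p i, a ∈ pQ ∨ ∃ i, a ∈ p i := by
        rintro a (ha | ha)
        · exact Or.inl ha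
        · exact Or.inr (mem_iUnion.mp ha)
      intro a ha b hb
      rcases hself a ha with ha | ⟨i, ha⟩ <;> rcases hself b hb with hb | ⟨j, hb⟩
      · exact hpQ.1 a ha b hb
      · exact (h j).atEq.1 a (Or.inl ha) b (Or.inr hb)
      · exact (h i).atEq.1 a (Or.inr ha) b (Or.inl hb)
      · by_cases hij : i = j
        · subst hij
          exact (h i).atEq.1 a (Or.inr ha) b (Or.inr hb)
        · constructor
          · intro hab
            exact absurd (hB.disj i j _ (hp i a ha).1 (hab ▸ (hp j b hb).1)) hij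
          · intro hab
            exact absurd (hB'.disj i j _ (hp i a ha).2 (hab ▸ (hp j b hb).2)) hij
    · -- relations
      intro n R v hv
      have hv' : ∀ k, v k ∈ pQ ∨ ∃ i, v k ∈ p i := by
        intro k
        rcases hv k with hk | hk
        · exact Or.inl hk
        · exact Or.inr (mem_iUnion.mp hk)
      by_cases hall : ∀ k, v k ∈ pQ
      · exact hpQ.2 n R v hall
      · push Not at hall
        obtain ⟨k0, hk0⟩ := hall
        obtain ⟨i, hi⟩ := (hv' k0).resolve_left hk0
        by_cases hi2 : ∀ k, v k ∈ pQ ∪ p i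
        · exact (h i).atEq.2 n R v hi2
        · constructor
          · intro hR
            exfalso
            apply hi2
            rcases hB.rel n R _ hR with ⟨j, hj⟩ | hj
            · have hij : i = j := by
                rcases hj k0 with h1 | h1
                · exact hB.disj i j _ (hp i _ hi).1 h1
                · exact absurd h1 (hB.disjQ i _ (hp i _ hi).1)
              subst hij
              intro k
              rcases hv' k with hk | ⟨l, hl⟩
              · exact Or.inl hk
              · rcases hj k with h1 | h1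
                · have := hB.disj i l _ h1 (hp l _ hl).1
                  subst this
                  exact Or.inr hl
                · exact absurd h1 (hB.disjQ l _ (hp l _ hl).1)
            · exact absurd (hj k0) (hB.disjQ i _ (hp i _ hi).1)
          · intro hR
            exfalso
            apply hi2
            rcases hB'.rel n R _ hR with ⟨j, hj⟩ | hj
            · have hij : i = j := by
                rcases hj k0 with h1 | h1
                · exact hB'.disj i j _ (hp i _ hi).2 h1
                · exact absurd h1 (hB'.disjQ i _ (hp i _ hi).2)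
              subst hij
              intro k
              rcases hv' k with hk | ⟨l, hl⟩
              · exact Or.inl hk
              · rcases hj k with h1 | h1
                · have := hB'.disj i l _ h1 (hp l _ hl).2
                  subst this
                  exact Or.inr hl
                · exact absurd h1 (hB'.disjQ l _ (hp l _ hl).2)
            · exact absurd (hj k0) (hB'.disjQ i _ (hp i _ hi).2)
    · -- forth
      rcases hB.cover x with hx | ⟨i, hx⟩
      · obtain ⟨y, hy⟩ := hpQ1 x hx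
        refine ⟨y, mem_univ _, ?_⟩
        rw [insert_eq_of_mem (show (x, y) ∈ pQ ∪ ⋃ i, p i from Or.inl hy)]
        exact ih β hβ hp fun i => (h i).mono hβ.le
      · obtain ⟨y, hy, hxy⟩ := (h i).forth hβ (Or.inl hx : x ∈ B i ∪ Q)
        have hyB : y ∈ B' i := by
          rcases hy with hy | hy
          · exact hy
          · exfalso
            obtain ⟨q, hq⟩ := hpQ2 y hy
            have := (hxy.atEq.1 (x, y) (mem_insert _ _) (q, y)
              (mem_insert_of_mem _ (Or.inl hq))).mpr rfl
            have hxq : x = q := this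
            exact hB.disjQ i x hx (hxq ▸ (hpQs _ hq).1)
        refine ⟨y, mem_univ _, ?_⟩
        have h2 := ih β hβ (p := Function.update p i (insert (x, y) (p i))) (by
          intro j a ha
          by_cases hj : j = i
          · subst hj
            rw [Function.update_self] at ha
            rcases ha with rfl | ha
            · exact ⟨hx, hyB⟩
            · exact hp j a ha
          · rw [Function.update_of_ne hj] at ha
            exact hp j a ha) (by
          intro j
          by_cases hj : j = i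
          · subst hj
            rw [Function.update_self]
            refine BFR.anti ?_ hxy
            rintro a (ha | rfl | ha)
            · exact mem_insert_of_mem _ (Or.inl ha)
            · exact mem_insert _ _
            · exact mem_insert_of_mem _ (Or.inr ha)
          · rw [Function.update_of_ne hj]
            exact (h j).mono hβ.le)
        refine BFR.anti ?_ h2
        rintro a (rfl | ha | ha)
        · refine Or.inr (mem_iUnion.mpr ⟨i, ?_⟩)
          rw [Function.update_self]
          exact mem_insert _ _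
        · exact Or.inl ha
        · obtain ⟨j, hj⟩ := mem_iUnion.mp ha
          refine Or.inr (mem_iUnion.mpr ⟨j, ?_⟩)
          by_cases hji : j = i
          · subst hji
            rw [Function.update_self]
            exact mem_insert_of_mem _ hj
          · rw [Function.update_of_ne hji]
            exact hj
    · -- back
      rcases hB'.cover y with hy | ⟨i, hy⟩
      · obtain ⟨x, hx⟩ := hpQ2 y hy
        refine ⟨x, mem_univ _, ?_⟩
        rw [insert_eq_of_mem (show (x, y) ∈ pQ ∪ ⋃ i, p i from Or.inl hx)]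
        exact ih β hβ hp fun i => (h i).mono hβ.le
      · obtain ⟨x, hx, hxy⟩ := (h i).back hβ (Or.inl hy : y ∈ B' i ∪ Q')
        have hxB : x ∈ B i := by
          rcases hx with hx | hx
          · exact hx
          · exfalso
            obtain ⟨q, hq⟩ := hpQ1 x hx
            have := (hxy.atEq.1 (x, y) (mem_insert _ _) (x, q)
              (mem_insert_of_mem _ (Or.inl hq))).mp rfl
            have hyq : y = q := this
            exact hB'.disjQ i y hy (hyq ▸ (hpQs _ hq).2)
        refine ⟨x, mem_univ _, ?_⟩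
        have h2 := ih β hβ (p := Function.update p i (insert (x, y) (p i))) (by
          intro j a ha
          by_cases hj : j = i
          · subst hj
            rw [Function.update_self] at ha
            rcases ha with rfl | ha
            · exact ⟨hxB, hy⟩
            · exact hp j a ha
          · rw [Function.update_of_ne hj] at ha
            exact hp j a ha) (by
          intro j
          by_cases hj : j = i
          · subst hj
            rw [Function.update_self]
            refine BFR.anti ?_ hxy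
            rintro a (ha | rfl | ha)
            · exact mem_insert_of_mem _ (Or.inl ha)
            · exact mem_insert _ _
            · exact mem_insert_of_mem _ (Or.inr ha)
          · rw [Function.update_of_ne hj]
            exact (h j).mono hβ.le)
        refine BFR.anti ?_ h2
        rintro a (rfl | ha | ha)
        · refine Or.inr (mem_iUnion.mpr ⟨i, ?_⟩)
          rw [Function.update_self]
          exact mem_insert _ _
        · exact Or.inl ha
        · obtain ⟨j, hj⟩ := mem_iUnion.mp ha
          refine Or.inr (mem_iUnion.mpr ⟨j, ?_⟩)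
          by_cases hji : j = i
          · subst hji
            rw [Function.update_self]
            exact mem_insert_of_mem _ hj
          · rw [Function.update_of_ne hji]
            exact hj

/-! ### components -/

section cpt
variable {V : Type} {G : SimpleGraph V} {Q : Set V}

theorem Conn.refl (x : V) : Conn G Q x x := Relation.ReflTransGen.refl

theorem Conn.symm {x y : V} (h : Conn G Q x y) : Conn G Q y x := by
  induction h with
  | refl => exact Relation.ReflTransGen.refl
  | tail _ h2 ih => exact Relation.ReflTransGen.head ⟨h2.1.symm, h2.2.2, h2.2.1⟩ ih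

theorem Conn.trans {x y z : V} (h : Conn G Q x y) (h' : Conn G Q y z) : Conn G Q x z :=
  Relation.ReflTransGen.trans h h'

theorem Conn.adj {x y : V} (h : G.Adj x y) (hx : x ∉ Q) (hy : y ∉ Q) : Conn G Q x y :=
  Relation.ReflTransGen.single ⟨h, hx, hy⟩

theorem Conn.notMem {x y : V} (h : Conn G Q x y) (hx : x ∉ Q) : y ∉ Q := by
  induction h with
  | refl => exact hx
  | tail _ h2 _ => exact h2.2.2

theorem mem_cpt_self (x : V) : x ∈ cpt G Q x := Conn.refl x

theorem cpt_eq {x y : V} (h : Conn G Q x y) : cpt G Q x = cpt G Q y := by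
  ext z
  exact ⟨fun hz => h.symm.trans hz, fun hz => h.trans hz⟩

theorem IsCpt.disjQ {C : Set V} (hC : IsCpt G Q C) {x : V} (hx : x ∈ C) : x ∉ Q := by
  obtain ⟨y, hy, rfl⟩ := hC
  exact Conn.notMem hx hy

theorem IsCpt.eq_cpt {C : Set V} (hC : IsCpt G Q C) {x : V} (hx : x ∈ C) : C = cpt G Q x := by
  obtain ⟨y, hy, rfl⟩ := hC
  exact cpt_eq hx

theorem IsCpt.eq_of_mem {C D : Set V} (hC : IsCpt G Q C) (hD : IsCpt G Q D) {x : V} (hx : x ∈ C)
    (hx' : x ∈ D) : C = D := by
  rw [hC.eq_cpt hx, hD.eq_cpt hx']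

theorem isCpt_cpt {x : V} (hx : x ∉ Q) : IsCpt G Q (cpt G Q x) := ⟨x, hx, rfl⟩

theorem IsCpt.nonempty {C : Set V} (hC : IsCpt G Q C) : C.Nonempty := by
  obtain ⟨y, hy, rfl⟩ := hC
  exact ⟨y, mem_cpt_self y⟩

end cpt

theorem gaif_adj_of_rel {S : L.Structure M} {n : ℕ} {R : L.Relations n} {v : Fin n → M}
    (h : S.RelMap R v) {i j : Fin n} (hij : v i ≠ v j) : (gaif S).Adj (v i) (v j) :=
  ⟨hij, n, R, v, h, mem_range_self i, mem_range_self j⟩

/-- The components of `M - Q` form a block decomposition. -/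
theorem blocks_cpt (S : L.Structure M) (Q : Set M) :
    Blocks S Q (fun C : {C : Set M // IsCpt (gaif S) Q C} => C.1) := by
  refine ⟨fun x => ?_, fun C x hx => C.2.disjQ hx, fun C D x hx hx' =>
    Subtype.ext (C.2.eq_of_mem D.2 hx hx'), fun n R v hv => ?_⟩
  · by_cases hx : x ∈ Q
    · exact Or.inl hx
    · exact Or.inr ⟨⟨cpt (gaif S) Q x, isCpt_cpt hx⟩, mem_cpt_self x⟩
  · by_cases hall : ∀ k, v k ∈ Q
    · exact Or.inr hall
    · push Not at hall
      obtain ⟨k0, hk0⟩ := hall
      refine Or.inl ⟨⟨cpt (gaif S) Q (v k0), isCpt_cpt hk0⟩, fun k => ?_⟩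
      by_cases hk : v k ∈ Q
      · exact Or.inr hk
      · left
        by_cases hkk : v k0 = v k
        · rw [← hkk]
          exact mem_cpt_self _
        · exact Conn.adj (gaif_adj_of_rel hv hkk) hk0 hk

/-! ### (6d) swapping two components -/

theorem swap_cpt {S : L.Structure M} {Q C D : Set M} (hC : IsCpt (gaif S) Q C)
    (hD : IsCpt (gaif S) Q D) (hne : C ≠ D) {c d : M} (hc : c ∈ C) (hd : d ∈ D)
    {g : Ordinal.{0}}
    (h : BFR S S (C ∪ Q) (D ∪ Q) g (insert (c, d) ((fun a => (a, a)) '' Q))) (F : Set M)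
    (hF : ∀ a ∈ F, a ∉ C ∧ a ∉ D) :
    BFR S S univ univ g (insert (c, d) ((fun a => (a, a)) '' (F ∪ Q))) := by
  classical
  let I := {C : Set M // IsCpt (gaif S) Q C}
  let e : Equiv.Perm I := Equiv.swap ⟨C, hC⟩ ⟨D, hD⟩
  have hB := blocks_cpt S Q
  have hB' : Blocks S Q (fun i : I => (e i).1) := by
    refine ⟨fun x => ?_, fun i x hx => hB.disjQ (e i) x hx, fun i j x hx hx' =>
      e.injective (hB.disj (e i) (e j) x hx hx'), fun n R v hv => ?_⟩
    · rcases hB.cover x with hx | ⟨i, hi⟩
      · exact Or.inl hx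
      · exact Or.inr ⟨e.symm i, by simpa using hi⟩
    · rcases hB.rel n R v hv with ⟨i, hi⟩ | hi
      · exact Or.inl ⟨e.symm i, by simpa using hi⟩
      · exact Or.inr hi
  let p : I → Set (M × M) := fun i => if i = ⟨C, hC⟩ then {(c, d)} else
    if i = ⟨D, hD⟩ then ∅ else (fun a => (a, a)) '' (F ∩ i.1)
  have heC : e ⟨C, hC⟩ = ⟨D, hD⟩ := Equiv.swap_apply_left _ _
  have heD : e ⟨D, hD⟩ = ⟨C, hC⟩ := Equiv.swap_apply_right _ _
  have hDC : (⟨D, hD⟩ : I) ≠ ⟨C, hC⟩ := fun h => hne (Subtype.ext_iff.mp h).symm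
  have key := BFR.blocks (g := g) hB hB' (pQ := (fun a => (a, a)) '' Q)
    (AtEq.anti (subset_insert _ _) h.atEq)
    (by rintro _ ⟨a, ha, rfl⟩; exact ⟨ha, ha⟩)
    (fun x hx => ⟨x, ⟨x, hx, rfl⟩⟩) (fun x hx => ⟨x, ⟨x, hx, rfl⟩⟩) (p := p) (by
      intro i a ha
      by_cases hiC : i = ⟨C, hC⟩
      · subst hiC
        simp only [p, if_true, mem_singleton_iff] at ha
        subst ha
        rw [heC]
        exact ⟨hc, hd⟩
      · by_cases hiD : i = ⟨D, hD⟩
        · subst hiD
          simp [p, hDC] at ha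
        · simp only [p, hiC, hiD, if_false] at ha
          obtain ⟨b, hb, rfl⟩ := ha
          have hei : e i = i := Equiv.swap_apply_of_ne_of_ne hiC hiD
          rw [hei]
          exact ⟨hb.2, hb.2⟩) (by
      intro i
      by_cases hiC : i = ⟨C, hC⟩
      · subst hiC
        rw [heC]
        simp only [p, if_true]
        refine BFR.anti ?_ h
        rintro a (ha | ha)
        · exact mem_insert_of_mem _ ha
        · exact Or.inl ha
      · by_cases hiD : i = ⟨D, hD⟩
        · subst hiD
          rw [heD]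
          simp only [p, hDC, if_false, if_true, union_empty]
          refine h.symm ?_
          rintro _ ⟨a, ha, rfl⟩
          exact mem_insert_of_mem _ ⟨a, ha, rfl⟩
        · have hei : e i = i := Equiv.swap_apply_of_ne_of_ne hiC hiD
          rw [hei]
          simp only [p, hiC, hiD, if_false]
          refine BFR.refl S _ g ?_
          rintro _ (⟨a, ha, rfl⟩ | ⟨a, ha, rfl⟩)
          · exact ⟨Or.inr ha, rfl⟩
          · exact ⟨Or.inl ha.2, rfl⟩)
  refine BFR.anti ?_ key
  rintro _ (rfl | ⟨a, ha | ha, rfl⟩)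
  · refine Or.inr (mem_iUnion.mpr ⟨⟨C, hC⟩, ?_⟩)
    simp [p]
  · by_cases haQ : a ∈ Q
    · exact Or.inl ⟨a, haQ, rfl⟩
    · refine Or.inr (mem_iUnion.mpr ⟨⟨cpt (gaif S) Q a, isCpt_cpt haQ⟩, ?_⟩)
      have h1 : (⟨cpt (gaif S) Q a, isCpt_cpt haQ⟩ : I) ≠ ⟨C, hC⟩ := by
        intro heq
        have : cpt (gaif S) Q a = C := Subtype.ext_iff.mp heq
        exact (hF a ha).1 (this ▸ mem_cpt_self a)
      have h2 : (⟨cpt (gaif S) Q a, isCpt_cpt haQ⟩ : I) ≠ ⟨D, hD⟩ := by
        intro heq
        have : cpt (gaif S) Q a = D := Subtype.ext_iff.mp heq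
        exact (hF a ha).2 (this ▸ mem_cpt_self a)
      simp only [p, h1, h2, if_false]
      exact ⟨a, ⟨ha, mem_cpt_self a⟩, rfl⟩
  · exact Or.inl ⟨a, ha, rfl⟩

/-! ### (6a) connectedness is preserved -/

theorem adj_of_BFR {S : L.Structure M} {S' : L.Structure N} {p : Set (M × N)}
    (h : BFR S S' univ univ Ordinal.omega0 p) {a b : M} {a' b' : N} (ha : (a, a') ∈ p)
    (hb : (b, b') ∈ p) (hab : (gaif S).Adj a b) : (gaif S').Adj a' b' := by
  obtain ⟨hne, n, R, v, hv, ⟨i, hi⟩, ⟨j, hj⟩⟩ := hab
  have hlt : (0 : Ordinal.{0}) + (n : Ordinal.{0}) ≤ Ordinal.omega0 := by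
    rw [zero_add]
    exact (Ordinal.natCast_lt_omega0 n).le
  obtain ⟨y, -, hy⟩ := (h.mono hlt).forth_many n v fun _ => mem_univ _
  have h1 := (hy.atEq.2 n R (fun i => (v i, y i)) fun i => Or.inr ⟨i, rfl⟩).mp hv
  refine ⟨fun heq => hne ?_, n, R, y, h1, ⟨i, ?_⟩, ⟨j, ?_⟩⟩
  · exact (hy.atEq.1 _ (Or.inl ha) _ (Or.inl hb)).mpr heq
  · exact (hy.atEq.1 (v i, y i) (Or.inr ⟨i, rfl⟩) (a, a') (Or.inl ha)).mp hi
  · exact (hy.atEq.1 (v j, y j) (Or.inr ⟨j, rfl⟩) (b, b') (Or.inl hb)).mp hj

/-- `p` pairs `Q` with `Q'`. -/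
def Pairs (Q : Set M) (Q' : Set N) (p : Set (M × N)) : Prop :=
  (∀ q ∈ Q, ∃ q' ∈ Q', (q, q') ∈ p) ∧ ∀ q' ∈ Q', ∃ q ∈ Q, (q, q') ∈ p

theorem Pairs.mono {Q : Set M} {Q' : Set N} {p p' : Set (M × N)} (h : Pairs Q Q' p)
    (hp : p ⊆ p') : Pairs Q Q' p' :=
  ⟨fun q hq => (h.1 q hq).imp fun _ h => ⟨h.1, hp h.2⟩,
    fun q hq => (h.2 q hq).imp fun _ h => ⟨h.1, hp h.2⟩⟩

theorem Pairs.mem_iff {S : L.Structure M} {S' : L.Structure N} {Q : Set M} {Q' : Set N}
    {p : Set (M × N)} (h : Pairs Q Q' p) (hp : AtEq S S' p) {x : M} {x' : N}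
    (hx : (x, x') ∈ p) : x ∈ Q ↔ x' ∈ Q' := by
  constructor
  · intro hxQ
    obtain ⟨q', hq', hq⟩ := h.1 x hxQ
    have := (hp.1 _ hx _ hq).mp rfl
    have h2 : x' = q' := this
    rw [h2]
    exact hq'
  · intro hxQ
    obtain ⟨q, hq', hq⟩ := h.2 x' hxQ
    have := (hp.1 _ hx _ hq).mpr rfl
    have h2 : x = q := this
    rw [h2]
    exact hq'

theorem conn_step {S : L.Structure M} {S' : L.Structure N} {Q : Set M} {Q' : Set N} {x y : M}
    (h : Conn (gaif S) Q x y) : ∃ k : ℕ, ∀ (p : Set (M × N)) (x' y' : N),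
      BFR S S' univ univ (Ordinal.omega0 + k) p → Pairs Q Q' p → (x, x') ∈ p → (y, y') ∈ p →
      Conn (gaif S') Q' x' y' := by
  induction h using Relation.ReflTransGen.head_induction_on with
  | refl =>
    refine ⟨0, fun p x' y' hp _ hx hy => ?_⟩
    have : x' = y' := (hp.atEq.1 _ hx _ hy).mp rfl
    rw [this]
    exact Conn.refl y'
  | head h1 h2 ih =>
    rename_i a b
    obtain ⟨k, hk⟩ := ih
    refine ⟨k + 1, fun p x' y' hp hPQ hx hy => ?_⟩
    have hlt : Ordinal.omega0 + (k : Ordinal.{0}) < Ordinal.omega0 + ((k + 1 : ℕ) : Ordinal.{0}) := by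
      have : (k : Ordinal.{0}) < ((k + 1 : ℕ) : Ordinal.{0}) := by exact_mod_cast Nat.lt_succ_self k
      exact add_lt_add_right this _
    obtain ⟨b', -, hb'⟩ := hp.forth hlt (mem_univ b)
    have hPQ' := hPQ.mono (subset_insert (b, b') p)
    have hadj : (gaif S').Adj x' b' := adj_of_BFR
      (hb'.mono (by exact le_self_add)) (mem_insert_of_mem _ hx) (mem_insert _ _) h1.1
    have hx'Q : x' ∉ Q' := fun h => h1.2.1
      ((hPQ'.mem_iff hb'.atEq (mem_insert_of_mem _ hx)).mpr h)
    have hb'Q : b' ∉ Q' := fun h => h1.2.2 ((hPQ'.mem_iff hb'.atEq (mem_insert _ _)).mpr h)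
    exact Relation.ReflTransGen.head ⟨hadj, hx'Q, hb'Q⟩
      (hk _ _ _ hb' hPQ' (mem_insert _ _) (mem_insert_of_mem _ hy))

theorem conn_of_BFR {S : L.Structure M} {S' : L.Structure N} {Q : Set M} {Q' : Set N}
    {p : Set (M × N)} (h : BFR S S' univ univ (Ordinal.omega0 + Ordinal.omega0) p)
    (hPQ : Pairs Q Q' p) {x y : M} {x' y' : N} (hx : (x, x') ∈ p) (hy : (y, y') ∈ p) :
    Conn (gaif S) Q x y ↔ Conn (gaif S') Q' x' y' := by
  have hle : ∀ k : ℕ, Ordinal.omega0 + (k : Ordinal.{0}) ≤ Ordinal.omega0 + Ordinal.omega0 :=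
    fun k => (add_lt_add_right (Ordinal.natCast_lt_omega0 k) _).le
  constructor
  · intro hc
    obtain ⟨k, hk⟩ := conn_step (S' := S') (Q' := Q') hc
    exact hk p x' y' (h.mono (hle k)) hPQ hx hy
  · intro hc
    obtain ⟨k, hk⟩ := conn_step (S' := S) (Q' := Q) hc
    refine hk (Prod.swap ⁻¹' p) x y (h.swap.mono (hle k)) ?_ hx hy
    exact ⟨fun q hq => hPQ.2 q hq, fun q hq => hPQ.1 q hq⟩

/-! ### (6b) restriction to a component -/

theorem BFR.restrict {S : L.Structure M} {S' : L.Structure N} {n : ℕ} {s : Fin n → M}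
    {s' : Fin n → N} {x : M} {x' : N} {g : Ordinal.{0}} : ∀ {p : Set (M × N)},
    BFR S S' univ univ (Ordinal.omega0 + Ordinal.omega0 + g) p →
    (∀ i, (s i, s' i) ∈ p) → (x, x') ∈ p →
    BFR S S' (cpt (gaif S) (range s) x ∪ range s) (cpt (gaif S') (range s') x' ∪ range s') g p := by
  induction g using WellFoundedLT.induction with
  | _ g ih =>
    intro p h hs hx
    have hPQ : Pairs (range s) (range s') p := by
      refine ⟨?_, ?_⟩
      · rintro _ ⟨i, rfl⟩
        exact ⟨s' i, mem_range_self i, hs i⟩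
      · rintro _ ⟨i, rfl⟩
        exact ⟨s i, mem_range_self i, hs i⟩
    rw [BFR.def]
    refine ⟨h.atEq, fun β hβ => ⟨fun z hz => ?_, fun z' hz' => ?_⟩⟩
    · have hlt : Ordinal.omega0 + Ordinal.omega0 + β < Ordinal.omega0 + Ordinal.omega0 + g :=
        add_lt_add_right hβ _
      obtain ⟨z', -, hz'⟩ := h.forth hlt (mem_univ z)
      refine ⟨z', ?_, ih β hβ hz' (fun i => mem_insert_of_mem _ (hs i)) (mem_insert_of_mem _ hx)⟩
      have hP' := hPQ.mono (subset_insert (z, z') p)
      rcases hz with hz | hz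
      · left
        exact (conn_of_BFR (hz'.mono le_self_add) hP' (mem_insert_of_mem _ hx)
          (mem_insert _ _)).mp hz
      · right
        exact (hP'.mem_iff hz'.atEq (mem_insert _ _)).mp hz
    · have hlt : Ordinal.omega0 + Ordinal.omega0 + β < Ordinal.omega0 + Ordinal.omega0 + g :=
        add_lt_add_right hβ _
      obtain ⟨z, -, hz⟩ := h.back hlt (mem_univ z')
      refine ⟨z, ?_, ih β hβ hz (fun i => mem_insert_of_mem _ (hs i)) (mem_insert_of_mem _ hx)⟩
      have hP' := hPQ.mono (subset_insert (z, z') p)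
      rcases hz' with hz' | hz'
      · left
        exact (conn_of_BFR (hz.mono le_self_add) hP' (mem_insert_of_mem _ hx)
          (mem_insert _ _)).mpr hz'
      · right
        exact (hP'.mem_iff hz.atEq (mem_insert _ _)).mpr hz'

end Pool.Agent.Helper79.VC
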