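import Pool.Agent.Helper6.VC.Fat

/-!
# Classes without (fat) subdivisions of the infinite complete graph have finite boundaries
-/

set_option autoImplicit false
set_option linter.unusedSectionVars false
set_option linter.unusedVariables false

namespace Pool.Agent.Helper6.VC

open Set Pool.Agent.Helper5 Pool.Agent.Helper5.DU Pool.Agent.Helper6.Str Pool.Agent.Helper79.VC
  Pool.Agent.Helper97.VC

variable {L : FirstOrder.Language.{0, 0}} {M : Type}

/-- several existential quantifiers -/
def exs {n : ℕ} : (k : ℕ) → FmI L (n + k) → FmI L n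
  | 0, φ => φ
  | k + 1, φ => exs k (.ex φ)

theorem sat_exs {S : L.Structure M} {n : ℕ} : ∀ (k : ℕ) (φ : FmI L (n + k)) (v : Fin n → M),
    Sat S (exs k φ) v ↔ ∃ a : Fin k → M, Sat S φ (Fin.append v a)
  | 0, φ, v => by
    constructor
    · intro h
      refine ⟨fun i => i.elim0, ?_⟩
      have : Fin.append v (fun i : Fin 0 => i.elim0) = v := by
        funext i
        exact Fin.append_left v _ i
      rw [this]
      exact h
    · rintro ⟨a, h⟩
      have : Fin.append v a = v := by
        funext i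
        exact Fin.append_left v _ i
      rw [this] at h
      exact h
  | k + 1, φ, v => by
    show Sat S (exs k (.ex φ)) v ↔ _
    rw [sat_exs k]
    have key : ∀ (a : Fin k → M) (b : M), (Fin.snoc (Fin.append v a) b : Fin (n + k + 1) → M) =
        Fin.append v (Fin.snoc a b : Fin (k + 1) → M) := by
      intro a b
      funext i
      refine Fin.lastCases ?_ (fun i => ?_) i
      · have h1 : (Fin.last (n + k) : Fin (n + k + 1)) = Fin.natAdd n (Fin.last k) := rfl
        rw [Fin.snoc_last, h1, Fin.append_right, Fin.snoc_last]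
      · rw [Fin.snoc_castSucc]
        refine Fin.addCases (fun j => ?_) (fun j => ?_) i
        · have h1 : (Fin.castAdd k j).castSucc = Fin.castAdd (k + 1) j := rfl
          rw [h1, Fin.append_left, Fin.append_left]
        · have h1 : (Fin.natAdd n j).castSucc = Fin.natAdd n j.castSucc := rfl
          rw [h1, Fin.append_right, Fin.append_right, Fin.snoc_castSucc]
    constructor
    · rintro ⟨a, b, h⟩
      rw [key] at h
      exact ⟨_, h⟩
    · rintro ⟨a, h⟩
      refine ⟨Fin.init a, a (Fin.last k), ?_⟩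
      rw [key, Fin.snoc_init_self]
      exact h

/-- a relation symbol with two places -/
abbrev Sy (L : FirstOrder.Language.{0, 0}) : Type := (k : ℕ) × (L.Relations k × (Fin k × Fin k))

/-- the relation symbol relates `x` and `y` at the two places -/
def AdjS (S : L.Structure M) (s : Sy L) (x y : M) : Prop :=
  ∃ v : Fin s.1 → M, S.RelMap s.2.1 v ∧ v s.2.2.1 = x ∧ v s.2.2.2 = y

/-- the formula for `AdjS` -/
def adjF {n : ℕ} (s : Sy L) (x y : Fin n) : FmI L n :=
  exs s.1 (.conj fun k => if k = 0 then .rel s.2.1 (fun i => Fin.natAdd n i)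
    else if k = 1 then .eq (Fin.natAdd n s.2.2.1) (Fin.castAdd s.1 x)
    else .eq (Fin.natAdd n s.2.2.2) (Fin.castAdd s.1 y))

theorem sat_adjF {S : L.Structure M} {n : ℕ} (s : Sy L) (x y : Fin n) (v : Fin n → M) :
    Sat S (adjF s x y) v ↔ AdjS S s (v x) (v y) := by
  unfold adjF
  rw [sat_exs]
  constructor
  · rintro ⟨a, h⟩
    have h0 := h 0
    have h1 := h 1
    have h2 := h 2
    simp only [if_true, one_ne_zero, if_false, OfNat.ofNat_ne_zero, OfNat.ofNat_ne_one, Sat,
      Fin.append_right, Fin.append_left] at h0 h1 h2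
    exact ⟨a, h0, h1, h2⟩
  · rintro ⟨a, h0, h1, h2⟩
    refine ⟨a, fun k => ?_⟩
    dsimp only
    split_ifs
    · simpa only [Sat, Fin.append_right] using h0
    · simpa only [Sat, Fin.append_right, Fin.append_left] using h1
    · simpa only [Sat, Fin.append_right, Fin.append_left] using h2

/-- there is a path from `x` to `y` through new vertices outside `Z`, along the symbols -/
def Pth (S : L.Structure M) (y : M) : List (Sy L) → Set M → M → Prop
  | [], _, x => x = y
  | s :: t, Z, x => ∃ w, w ∉ Z ∧ AdjS S s x w ∧ Pth S y t (insert w Z) w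

/-- the formula for `Pth` -/
def pathF : List (Sy L) → (n : ℕ) → Fin n → Fin n → FmI L n
  | [], _, y, c => .eq c y
  | s :: t, n, y, c => .ex (.conj fun k =>
      if h : k < n then
        if (⟨k, h⟩ : Fin n) = y then .eq (Fin.last n) (Fin.last n)
        else .neg (.eq (Fin.last n) (Fin.castSucc ⟨k, h⟩))
      else if k = n then adjF s (Fin.castSucc c) (Fin.last n)
      else pathF t (n + 1) (Fin.castSucc y) (Fin.last n))

theorem sat_pathF {S : L.Structure M} : ∀ (t : List (Sy L)) (n : ℕ) (y c : Fin n) (v : Fin n → M),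
    Sat S (pathF t n y c) v ↔ Pth S (v y) t {z | ∃ i, i ≠ y ∧ v i = z} (v c)
  | [], _, _, _, _ => Iff.rfl
  | s :: t, n, y, c, v => by
    have key : ∀ w : M, {z | ∃ i, i ≠ Fin.castSucc y ∧ (Fin.snoc v w : Fin (n + 1) → M) i = z} =
        insert w {z | ∃ i, i ≠ y ∧ v i = z} := by
      intro w
      ext z
      constructor
      · rintro ⟨i, hi, rfl⟩
        revert hi
        refine Fin.lastCases ?_ (fun i => ?_) i
        · intro _
          rw [Fin.snoc_last]
          exact mem_insert _ _
        · intro hi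
          rw [Fin.snoc_castSucc]
          exact mem_insert_of_mem _ ⟨i, fun h => hi (by rw [h]), rfl⟩
      · rintro (rfl | ⟨i, hi, rfl⟩)
        · exact ⟨Fin.last n, (Fin.castSucc_lt_last y).ne', Fin.snoc_last _ _⟩
        · exact ⟨Fin.castSucc i, fun h => hi (Fin.castSucc_injective _ h), Fin.snoc_castSucc ..⟩
    have hrec : ∀ w : M, Sat S (pathF t (n + 1) (Fin.castSucc y) (Fin.last n))
        (Fin.snoc v w : Fin (n + 1) → M) ↔
        Pth S (v y) t (insert w {z | ∃ i, i ≠ y ∧ v i = z}) w := by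
      intro w
      rw [sat_pathF t (n + 1), key, Fin.snoc_castSucc, Fin.snoc_last]
    simp only [pathF, Sat, Pth]
    refine exists_congr fun w => ?_
    constructor
    · intro h
      refine ⟨?_, ?_, ?_⟩
      · rintro ⟨i, hi, rfl⟩
        have h1 := h i.1
        rw [dif_pos i.2, if_neg hi] at h1
        simp only [Sat, Fin.snoc_last, Fin.snoc_castSucc] at h1
        exact h1 trivial
      · have h1 := h n
        rw [dif_neg (lt_irrefl n), if_pos rfl, sat_adjF, Fin.snoc_castSucc, Fin.snoc_last] at h1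
        exact h1
      · have h1 := h (n + 1)
        rw [dif_neg (by omega), if_neg (by omega), hrec] at h1
        exact h1
    · rintro ⟨h1, h2, h3⟩ k
      by_cases hk : k < n
      · rw [dif_pos hk]
        split_ifs with h4
        · rfl
        · simp only [Sat, Fin.snoc_last, Fin.snoc_castSucc]
          intro h5
          exact h1 ⟨⟨k, hk⟩, h4, h5.symm⟩
      · rw [dif_neg hk]
        split_ifs with h4
        · rw [sat_adjF, Fin.snoc_castSucc, Fin.snoc_last]
          exact h2
        · rw [hrec]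
          exact h3

/-- from `Pth` to lists of vertices -/
theorem list_of_pth {S : L.Structure M} {y : M} {𝓕 : Set ((n : ℕ) × L.Relations n)} :
    ∀ (t : List (Sy L)) (Z : Set M) (x : M), (∀ s ∈ t, (⟨s.1, s.2.1⟩ : (n : ℕ) × L.Relations n) ∈ 𝓕) →
      x ∈ Z → Pth S y t Z x → ∃ l : List M, l.length = t.length ∧ l.Nodup ∧ (∀ v ∈ l, v ∉ Z) ∧
        List.IsChain (gaifOf 𝓕 S).Adj (x :: l) ∧ (x :: l).getLast? = some y
  | [], Z, x, _, hx, h => ⟨[], rfl, List.nodup_nil, fun v hv => absurd hv List.not_mem_nil,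
      List.IsChain.singleton x, by rw [List.getLast?_singleton]; exact congrArg some h⟩
  | s :: t, Z, x, hF, hx, h => by
    obtain ⟨w, hw, ⟨v, hv1, hv2, hv3⟩, h1⟩ := h
    obtain ⟨l, h2, h3, h4, h5, h6⟩ := list_of_pth t (insert w Z) w
      (fun s' hs' => hF s' (List.mem_cons_of_mem _ hs')) (mem_insert _ _) h1
    refine ⟨w :: l, by simp [h2], ?_, ?_, ?_, ?_⟩
    · rw [List.nodup_cons]
      exact ⟨fun h => h4 w h (mem_insert _ _), h3⟩
    · intro u hu
      rcases List.mem_cons.mp hu with rfl | hu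
      · exact hw
      · exact fun h => h4 u hu (mem_insert_of_mem _ h)
    · rw [List.isChain_cons_cons]
      refine ⟨⟨?_, ⟨s.1, s.2.1⟩, hF s List.mem_cons_self, v, hv1, ⟨_, hv2⟩, ⟨_, hv3⟩⟩, h5⟩
      rintro rfl
      exact hw hx
    · rw [List.getLast?_cons_cons]
      exact h6

/-- from lists of vertices to `Pth` -/
theorem pth_of_list {S : L.Structure M} {y : M} : ∀ (P : List M) (Z : Set M) (x : M),
    (x :: (P ++ [y])).Nodup → List.IsChain (gaif S).Adj (x :: (P ++ [y])) →
    (∀ v ∈ P, v ∉ Z) → y ∉ Z → ∃ t : List (Sy L), t.length = P.length + 1 ∧ Pth S y t Z x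
  | [], Z, x, hnd, hch, hP, hy => by
    rw [List.nil_append, List.isChain_cons_cons] at hch
    obtain ⟨⟨hne, n, R, v, hv, ⟨i, hi⟩, ⟨j, hj⟩⟩, -⟩ := hch
    exact ⟨[⟨n, (R, (i, j))⟩], rfl, y, hy, ⟨v, hv, hi, hj⟩, rfl⟩
  | w :: P, Z, x, hnd, hch, hP, hy => by
    rw [List.cons_append, List.isChain_cons_cons] at hch
    obtain ⟨⟨hne, n, R, v, hv, ⟨i, hi⟩, ⟨j, hj⟩⟩, hch⟩ := hch
    rw [List.cons_append, List.nodup_cons] at hnd
    have hnd2 := hnd.2
    rw [List.nodup_cons] at hnd2
    obtain ⟨t, ht1, ht2⟩ := pth_of_list P (insert w Z) w hnd.2 hch (by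
      intro u hu
      rintro (rfl | h)
      · exact hnd2.1 (by simp [hu])
      · exact hP u (List.mem_cons_of_mem _ hu) h) (by
      rintro (rfl | h)
      · exact hnd2.1 (by simp)
      · exact hy h)
    exact ⟨⟨n, (R, (i, j))⟩ :: t, by simp [ht1], w, hP w List.mem_cons_self, ⟨v, hv, hi, hj⟩, ht2⟩

/-- there is a tuple, omitting the end point, which meets all the paths -/
def hitF (t : List (Sy L)) (n : ℕ) : FmI L 2 := exs n (.conj fun k =>
  if h : k < n then .neg (.eq (Fin.natAdd 2 ⟨k, h⟩) (Fin.castAdd n 0))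
  else .neg (pathF t (2 + n) (Fin.castAdd n 0) (Fin.castAdd n 1)))

theorem sat_path2 {S : L.Structure M} (t : List (Sy L)) (n : ℕ) (v : Fin 2 → M) (z : Fin n → M) :
    Sat S (pathF t (2 + n) (Fin.castAdd n 0) (Fin.castAdd n 1)) (Fin.append v z) ↔
      Pth S (v 0) t (insert (v 1) (range z)) (v 1) := by
  rw [sat_pathF]
  have h2 : {x | ∃ i, i ≠ Fin.castAdd n (0 : Fin 2) ∧ Fin.append v z i = x} =
      insert (v 1) (range z) := by
    ext x
    constructor
    · rintro ⟨i, hi, rfl⟩
      revert hi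
      refine Fin.addCases (fun j => ?_) (fun j => ?_) i
      · intro hi
        rw [Fin.append_left]
        have : j = 1 := by
          have h3 : j ≠ 0 := fun h => hi (by rw [h])
          omega
        rw [this]
        exact mem_insert _ _
      · intro _
        rw [Fin.append_right]
        exact mem_insert_of_mem _ (mem_range_self j)
    · rintro (rfl | ⟨j, rfl⟩)
      · refine ⟨Fin.castAdd n 1, ?_, by rw [Fin.append_left]⟩
        intro h
        have := Fin.castAdd_injective _ _ h
        exact absurd this (by decide)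
      · refine ⟨Fin.natAdd 2 j, ?_, Fin.append_right ..⟩
        intro h
        have h3 := congrArg Fin.val h
        simp at h3
  rw [h2, Fin.append_left, Fin.append_left]

theorem sat_hitF {S : L.Structure M} (t : List (Sy L)) (n : ℕ) (v : Fin 2 → M) :
    Sat S (hitF t n) v ↔ ∃ z : Fin n → M, (∀ i, z i ≠ v 0) ∧
      ¬ Pth S (v 0) t (insert (v 1) (range z)) (v 1) := by
  unfold hitF
  rw [sat_exs]
  refine exists_congr fun z => ?_
  rw [← sat_path2]
  constructor
  · intro h
    refine ⟨fun i => ?_, ?_⟩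
    · have h1 := h i.1
      simp only [i.2, dif_pos, Sat, Fin.append_left, Fin.append_right, Fin.eta] at h1
      exact h1
    · have h1 := h n
      simp only [lt_irrefl, dif_neg, not_false_iff, Sat] at h1
      exact h1
  · rintro ⟨h1, h2⟩ k
    by_cases hk : k < n
    · simp only [hk, dif_pos, Sat, Fin.append_left, Fin.append_right]
      exact h1 _
    · simp only [hk, dif_neg, not_false_iff, Sat]
      exact h2

theorem pth_anti {S : L.Structure M} {y : M} : ∀ (t : List (Sy L)) {Z Z' : Set M} (x : M),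
    Z' ⊆ Z → Pth S y t Z x → Pth S y t Z' x
  | [], _, _, _, _, h => h
  | _ :: t, _, _, _, hZ, ⟨w, hw, h1, h2⟩ =>
    ⟨w, fun h => hw (hZ h), h1, pth_anti t w (insert_subset_insert hZ) h2⟩

/-- **Classes without fat subdivisions of the infinite complete graph have finite boundaries.** -/
theorem finiteBoundaries_of_not_fat (hc : Countable L.Symbols) (T : L.Theory) (φ : FmI L 0)
    (h : ∀ S : L.Structure ℕ, IsMod T φ S → ¬ HasFatTK S) :
    ∃ Ψ : ℕ → (n : ℕ) × FmI L n, FiniteBoundaries T φ Ψ := by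
  classical
  have hcr : ∀ n, Countable (L.Relations n) := countable_relations hc
  obtain ⟨e, he⟩ := exists_surjective_nat ((List (Sy L) × ℕ) × Bool)
  let Ψ₀ : (List (Sy L) × ℕ) × Bool → (n : ℕ) × FmI L n := fun q => match q.2 with
    | true => ⟨2, hitF q.1.1 q.1.2⟩
    | false => ⟨2 + q.1.2, pathF q.1.1 (2 + q.1.2) (Fin.castAdd _ 0) (Fin.castAdd _ 1)⟩
  refine ⟨fun k => Ψ₀ (e k), ?_⟩
  intro A S hA hS f hf c hc
  obtain ⟨hfi, hfR, hfΨ⟩ := hf
  have hP : ∀ q, ∀ v : Fin (Ψ₀ q).1 → ℕ, Sat A (Ψ₀ q).2 v ↔ Sat S (Ψ₀ q).2 (f ∘ v) := by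
    intro q
    obtain ⟨k, hk⟩ := he q
    have h1 : ∀ v : Fin (Ψ₀ (e k)).1 → ℕ, Sat A (Ψ₀ (e k)).2 v ↔ Sat S (Ψ₀ (e k)).2 (f ∘ v) :=
      hfΨ k
    rw [hk] at h1
    exact h1
  have hhit : ∀ t n (v : Fin 2 → ℕ), Sat A (hitF t n) v ↔ Sat S (hitF t n) (f ∘ v) := by
    intro t n v
    exact hP ((t, n), true) v
  have hpath : ∀ t n (v : Fin (2 + n) → ℕ),
      Sat A (pathF t (2 + n) (Fin.castAdd _ 0) (Fin.castAdd _ 1)) v ↔
        Sat S (pathF t (2 + n) (Fin.castAdd _ 0) (Fin.castAdd _ 1)) (f ∘ v) := by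
    intro t n v
    exact hP ((t, n), false) v
  by_contra hinf
  have hinf' : (bdy (gaif S) (range f) c).Infinite := hinf
  refine h S hS ⟨fun n => (hinf'.natEmbedding _ n : ℕ), ?_, ?_⟩
  · intro m n hmn
    exact (hinf'.natEmbedding _).injective (Subtype.ext hmn)
  · intro i j hij
    set a := (hinf'.natEmbedding _ i : ℕ) with ha
    set a' := (hinf'.natEmbedding _ j : ℕ) with ha'
    obtain ⟨haA, x, hx, hax⟩ : a ∈ bdy (gaif S) (range f) c := (hinf'.natEmbedding _ i).2
    obtain ⟨haA', x', hx', hax'⟩ : a' ∈ bdy (gaif S) (range f) c := (hinf'.natEmbedding _ j).2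
    have hne : a ≠ a' := by
      intro he
      exact hij.ne ((hinf'.natEmbedding _).injective (Subtype.ext he))
    have hl : Lnk (gaif S) (range f) a a' := ⟨x, x', hax, hax'.symm, conn_notMem hc hx,
      conn_notMem hc hx', conn_trans (conn_symm hx) hx'⟩
    obtain ⟨P, hP0, hP1, hP2, hP3⟩ := exists_inner' hne haA haA' hl
    obtain ⟨t, ht1, ht2⟩ := pth_of_list (y := a') P (range f \ {a'}) a hP1 hP2
      (fun v hv h => hP3 v hv h.1) (fun h => h.2 rfl)
    obtain ⟨α, hα⟩ := haA
    obtain ⟨α', hα'⟩ := haA'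
    -- no finite set meets the paths
    have key : ∀ (n : ℕ) (z : Fin n → ℕ), (∀ i, z i ≠ a') →
        Pth S a' t (insert a (range z)) a := by
      intro n z hz
      by_contra hno
      have h1 : Sat S (hitF t n) (f ∘ ![α', α]) := by
        rw [sat_hitF]
        refine ⟨z, ?_, ?_⟩
        · intro i
          show z i ≠ f α'
          rw [hα']
          exact hz i
        · show ¬ Pth S (f α') t (insert (f α) (range z)) (f α)
          rw [hα, hα']
          exact hno
      rw [← hhit, sat_hitF] at h1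
      obtain ⟨z', hz1, hz2⟩ := h1
      rw [← sat_path2, hpath] at hz2
      have e1 : f ∘ Fin.append ![α', α] z' = Fin.append (f ∘ ![α', α]) (f ∘ z') := by
        funext k
        refine Fin.addCases (fun j => ?_) (fun j => ?_) k
        · simp [Fin.append_left]
        · simp [Fin.append_right]
      rw [e1, sat_path2] at hz2
      apply hz2
      show Pth S (f α') t (insert (f α) (range (f ∘ z'))) (f α)
      rw [hα, hα']
      refine pth_anti t a ?_ ht2
      rintro u (rfl | ⟨k, rfl⟩)
      · exact ⟨⟨α, hα⟩, hne⟩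
      · refine ⟨⟨z' k, rfl⟩, ?_⟩
        intro h2
        have h3 : f (z' k) = f α' := by
          rw [hα']
          exact h2
        exact hz1 k (hfi h3)
    refine ⟨{r | ∃ s ∈ t, r = ⟨s.1, s.2.1⟩}, P.length, ?_, hP0, fun Z hZ => ?_⟩
    · have : {r : (n : ℕ) × L.Relations n | ∃ s ∈ t, r = ⟨s.1, s.2.1⟩} =
          (fun s : Sy L => (⟨s.1, s.2.1⟩ : (n : ℕ) × L.Relations n)) '' {s | s ∈ t} := by
        ext r
        constructor
        · rintro ⟨s, hs, rfl⟩
          exact ⟨s, hs, rfl⟩
        · rintro ⟨s, hs, rfl⟩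
          exact ⟨s, hs, rfl⟩
      rw [this]
      exact (List.finite_toSet t).image _
    · have hZ' : (Z \ {a'}).Finite := hZ.subset sdiff_subset
      obtain ⟨n, z, hz⟩ : ∃ (n : ℕ) (z : Fin n → ℕ), range z = Z \ {a'} := by
        refine ⟨hZ'.toFinset.card, fun i => (hZ'.toFinset.equivFin.symm i : ℕ), ?_⟩
        ext u
        constructor
        · rintro ⟨i, rfl⟩
          exact hZ'.mem_toFinset.mp (hZ'.toFinset.equivFin.symm i).2
        · intro hu
          exact ⟨hZ'.toFinset.equivFin ⟨u, hZ'.mem_toFinset.mpr hu⟩, by simp⟩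
      have h1 := key n z (fun i h2 => by
        have : z i ∈ Z \ {a'} := hz ▸ mem_range_self i
        exact this.2 h2)
      rw [hz] at h1
      obtain ⟨l, h2, h3, h4, h5, h6⟩ := list_of_pth t _ a
        (𝓕 := {r | ∃ s ∈ t, r = ⟨s.1, s.2.1⟩}) (fun s hs => ⟨s, hs, rfl⟩) (mem_insert _ _) h1
      have hlne : l ≠ [] := by
        rintro rfl
        rw [ht1] at h2
        simp at h2
      have h7 : l.getLast hlne = a' := by
        rw [List.getLast?_cons, List.getLast?_eq_some_getLast hlne] at h6
        simpa using h6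
      have h8 : l.dropLast ++ [a'] = l := by
        rw [← h7]
        exact List.dropLast_append_getLast hlne
      refine ⟨l.dropLast, ?_, ?_, ?_, ?_⟩
      · rw [List.length_dropLast, h2, ht1]
        simp
      · intro u hu huZ
        refine h4 u (List.mem_of_mem_dropLast hu) (mem_insert_of_mem _ ⟨huZ, ?_⟩)
        rintro rfl
        rw [← h8, List.nodup_append] at h3
        exact h3.2.2 _ hu _ (List.mem_singleton_self _) rfl
      · rw [h8, List.nodup_cons]
        exact ⟨fun h => h4 a h (mem_insert _ _), h3⟩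
      · rw [h8]
        exact h5

/-- Classes whose Gaifman graphs contain no subdivision of the infinite complete graph have finite
boundaries. -/
theorem finiteBoundaries_of_not_TK (hc : Countable L.Symbols) (T : L.Theory) (φ : FmI L 0)
    (h : ∀ S : L.Structure ℕ, IsMod T φ S → ¬ HasTK (gaif S)) :
    ∃ Ψ : ℕ → (n : ℕ) × FmI L n, FiniteBoundaries T φ Ψ :=
  finiteBoundaries_of_not_fat hc T φ fun S hS hf => h S hS (hasTK_of_fat hf)

end Pool.Agent.Helper6.VC
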