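import Pool.Agent.VB.B

/-!
# Finite boundaries and fat subdivisions: the definitions used in the statement
-/

set_option autoImplicit false
set_option linter.unusedSectionVars false
set_option linter.unusedVariables false

namespace Pool.Agent.Helper6.VC

open Set Pool.Agent.Helper5.DU Pool.Agent.Helper79.VC

variable {L : FirstOrder.Language.{0, 0}} {M : Type}

/-- `S` is a model of the theory `T` and of the infinitary sentence `φ` -/
def IsMod (T : L.Theory) (φ : FmI L 0) (S : L.Structure ℕ) : Prop :=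
  @FirstOrder.Language.Theory.Model L ℕ S T ∧ Sat S φ Fin.elim0

/-- `f` is an embedding of `A` in `S` which is elementary for the formulas of the sequence `Ψ` -/
def Elem (Ψ : ℕ → (n : ℕ) × FmI L n) (A S : L.Structure ℕ) (f : ℕ → ℕ) : Prop :=
  Function.Injective f ∧
    (∀ (n : ℕ) (R : L.Relations n) (v : Fin n → ℕ), A.RelMap R v ↔ S.RelMap R (f ∘ v)) ∧
    ∀ (k : ℕ) (v : Fin (Ψ k).1 → ℕ), Sat A (Ψ k).2 v ↔ Sat S (Ψ k).2 (f ∘ v)

/-- the boundary of the component of `c` outside `A`: the elements of `A` which have a neighbour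
in this component -/
def bdy {V : Type} (G : SimpleGraph V) (A : Set V) (c : V) : Set V :=
  {a | a ∈ A ∧ ∃ x ∈ cpt G A c, G.Adj a x}

/-- **Finite boundaries.** Whenever `f` embeds the model `A` of `T` and `φ` in the model `S` of
`T` and `φ`, elementarily for the formulas of the sequence `Ψ`, every component of the Gaifman
graph of `S` outside the image of `f` has finitely many neighbours in this image. -/
def FiniteBoundaries (T : L.Theory) (φ : FmI L 0) (Ψ : ℕ → (n : ℕ) × FmI L n) : Prop :=
  ∀ A S : L.Structure ℕ, IsMod T φ A → IsMod T φ S → ∀ f : ℕ → ℕ, Elem Ψ A S f →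
    ∀ c, c ∉ range f → (bdy (gaif S) (range f) c).Finite

/-- The Gaifman graph of the reduct to the relation symbols in `𝓕`. -/
def gaifOf (𝓕 : Set ((n : ℕ) × L.Relations n)) (S : L.Structure M) : SimpleGraph M where
  Adj x y := x ≠ y ∧ ∃ r ∈ 𝓕, ∃ v : Fin r.1 → M, S.RelMap r.2 v ∧ x ∈ range v ∧ y ∈ range v
  symm := ⟨fun _ _ ⟨h, r, hr, v, h1, h2, h3⟩ => ⟨h.symm, r, hr, v, h1, h3, h2⟩⟩
  loopless := ⟨fun _ h => h.1 rfl⟩

/-- `S` contains a fat subdivision of the infinite complete graph: there are distinct elements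
`b 0`, `b 1`, ... such that for `i < j` there are a finite set `𝓕` of relation symbols and a number
`m > 0` such that outside every finite set there is a path with `m` inner vertices from `b i` to
`b j` in the Gaifman graph of the reduct of `S` to `𝓕`. -/
def HasFatTK (S : L.Structure M) : Prop :=
  ∃ b : ℕ → M, Function.Injective b ∧ ∀ i j, i < j →
    ∃ (𝓕 : Set ((n : ℕ) × L.Relations n)) (m : ℕ), 𝓕.Finite ∧ 0 < m ∧
      ∀ Z : Set M, Z.Finite → ∃ P : List M, P.length = m ∧ (∀ z ∈ P, z ∉ Z) ∧
        (b i :: (P ++ [b j])).Nodup ∧ List.IsChain (gaifOf 𝓕 S).Adj (b i :: (P ++ [b j]))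

end Pool.Agent.Helper6.VC
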