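import Pool.Agent.VB.B
import Pool.Agent.Helper5.DU.Main
import Pool.Agent.Helper5.Realize

/-!
# From classes closed under a back and forth level to theories and sentences
-/

set_option autoImplicit false

namespace Pool.Agent.Helper79.VC

open Set Pool.Agent.Helper5 Pool.Agent.Helper5.DU Pool.Agent.Helper6.Str

variable {L : FirstOrder.Language.{0, 0}}

/-- The class of the models on `ℕ` of a theory and an infinitary sentence is measurable and closed
under the back and forth equivalence of some countable level. -/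
theorem exists_level (hc : Countable L.Symbols) [hrel : ∀ n, IsEmpty (L.Functions n)]
    (T : L.Theory) (φ : FmI L 0) {K : Set (L.Structure ℕ)}
    (hKdef : ∀ S : L.Structure ℕ, S ∈ K ↔
      @FirstOrder.Language.Theory.Model L ℕ S T ∧ Sat S φ Fin.elim0) :
    MeasurableSet {c : Code L | toStr c ∈ K} ∧ ∃ d < om1, ClosedLev K d := by
  have hcr : ∀ n, Countable (L.Relations n) := countable_relations hc
  have hcs : Countable L.Sentence := inferInstanceAs (Countable (L.Formula Empty))
  have hK : MeasurableSet {c : Code L | toStr c ∈ K} := by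
    have h1 := (measurableSet_model hc T).inter (measurableSet_sat φ (Fin.elim0 : Fin 0 → ℕ))
    have h2 : {c : Code L | toStr c ∈ K} = {c : Code L |
        @FirstOrder.Language.Theory.Model L ℕ (toStr c) T} ∩
        {c : Code L | Sat (toStr c) φ (Fin.elim0 : Fin 0 → ℕ)} := by
      ext c
      exact hKdef (toStr c)
    rw [h2]
    exact h1
  refine ⟨hK, ?_⟩
  have hne : Nonempty L.Sentence := ⟨⊥⟩
  obtain ⟨d, hd⟩ := exists_surjective_nat L.Sentence
  let r : Rk := .sup fun n => if n = 0 then rk φ else rk (toI (d (n - 1)))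
  refine ⟨ordOf r, ordOf_lt r, ?_⟩
  intro S hS S' hSS'
  have hSS := BFR.bf r hSS'
  rw [hKdef] at hS ⊢
  obtain ⟨h1, h2⟩ := hS
  have hpr : ∀ (v w : Fin 0 → ℕ), (Set.range fun i => (v i, w i)) = (∅ : Set (ℕ × ℕ)) :=
    fun v w => Set.range_eq_empty _
  have hsent : ∀ σ : L.Sentence, @FirstOrder.Language.Sentence.Realize L ℕ S σ ↔
      @FirstOrder.Language.Sentence.Realize L ℕ S' σ := by
    intro σ
    obtain ⟨n, hn⟩ := hd σ
    have h3 := hSS (n + 1)
    simp only [Nat.add_eq_zero_iff, one_ne_zero, and_false, if_false, Nat.add_sub_cancel,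
      hn] at h3
    have h4 := sat_of_BF (toI σ) (default : Fin 0 → ℕ) (default : Fin 0 → ℕ)
      (by rw [hpr]; exact h3)
    rw [sat_toI, sat_toI] at h4
    have h5 : ∀ (A : L.Structure ℕ) (v : Empty → ℕ) (w : Fin 0 → ℕ),
        @FirstOrder.Language.BoundedFormula.Realize L ℕ A Empty 0 σ v w ↔
          @FirstOrder.Language.Sentence.Realize L ℕ A σ := by
      intro A v w
      exact iff_of_eq (congrArg₂ (@FirstOrder.Language.BoundedFormula.Realize L ℕ A Empty 0 σ)
        (Subsingleton.elim _ _) (Subsingleton.elim _ _))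
    rwa [h5, h5] at h4
  refine ⟨?_, ?_⟩
  · rw [@FirstOrder.Language.Theory.model_iff L ℕ S']
    rw [@FirstOrder.Language.Theory.model_iff L ℕ S] at h1
    exact fun σ hσ => (hsent σ).mp (h1 σ hσ)
  · have h3 := hSS 0
    simp only [if_true] at h3
    exact (sat_of_BF φ Fin.elim0 Fin.elim0 (by rw [hpr]; exact h3)).mp h2

/-- The final theorem from the main dichotomy for classes closed under a level. -/
theorem final_of_main (hc : Countable L.Symbols) [hrel : ∀ n, IsEmpty (L.Functions n)]
    (T : L.Theory) (φ : FmI L 0)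
    (hTK : ∀ S : L.Structure ℕ, @FirstOrder.Language.Theory.Model L ℕ S T →
      Sat S φ Fin.elim0 → ¬ HasTK (gaif S))
    (main : ∀ (K : Set (L.Structure ℕ)), MeasurableSet {c : Code L | toStr c ∈ K} →
      ∀ d < om1, ClosedLev K d → (∀ S ∈ K, ¬ HasTK (gaif S)) → ¬ PerfK K → CtblK K) :
    (∃ g : ℕ → L.Structure ℕ, ∀ S : L.Structure ℕ,
        @FirstOrder.Language.Theory.Model L ℕ S T → Sat S φ Fin.elim0 →
          ∃ n : ℕ, Nonempty (@FirstOrder.Language.Equiv L ℕ ℕ S (g n))) ∨
    (∃ f : (ℕ → Bool) → L.Structure ℕ,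
        (∀ x : ℕ → Bool, @FirstOrder.Language.Theory.Model L ℕ (f x) T ∧
          Sat (f x) φ Fin.elim0) ∧
        (∀ x y : ℕ → Bool,
            Nonempty (@FirstOrder.Language.Equiv L ℕ ℕ (f x) (f y)) → x = y) ∧
        (∀ (n : ℕ) (R : L.Relations n) (a : Fin n → ℕ),
            IsClopen {x : ℕ → Bool | @FirstOrder.Language.Structure.RelMap L ℕ (f x) n R a})) := by
  let K : Set (L.Structure ℕ) :=
    {S | @FirstOrder.Language.Theory.Model L ℕ S T ∧ Sat S φ Fin.elim0}
  obtain ⟨hK, d, hd, hcl⟩ := exists_level hc T φ (K := K) fun S => Iff.rfl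
  by_cases hP : PerfK K
  · obtain ⟨f, hf1, hf2, hf3⟩ := hP
    exact Or.inr ⟨f, hf1, fun x y h => hf2 x y ((nonempty_equiv_iff _ _).mp h), hf3⟩
  · obtain ⟨g, hg⟩ := main K hK d hd hcl (fun S hS => hTK S hS.1 hS.2) hP
    refine Or.inl ⟨g, fun S h1 h2 => ?_⟩
    obtain ⟨n, hn⟩ := hg S ⟨h1, h2⟩
    exact ⟨n, (nonempty_equiv_iff S (g n)).mpr hn⟩

end Pool.Agent.Helper79.VC
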