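import Pool.Agent.Helper97.VC.MainFB
import Pool.Agent.Helper6.VC.Final
import Pool.Agent.Helper6.VC.FBDefs

/-!
# Classes with finite boundaries: formulas and elementary pairs
-/

set_option autoImplicit false
set_option linter.unusedSectionVars false
set_option linter.unusedVariables false

namespace Pool.Agent.Helper6.VC

open Set Pool.Agent.Helper5 Pool.Agent.Helper5.DU Pool.Agent.Helper6.Str Pool.Agent.Helper79.VC
  Pool.Agent.Helper97.VC

variable {L : FirstOrder.Language.{0, 0}} {M : Type}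

section
variable [∀ n, IsEmpty (L.Functions n)]

/-- an enumeration of a closed set preserves the formulas of small rank -/
theorem sat_of_closedAt {S : L.Structure ℕ} {A : Set ℕ} {g : Ordinal.{0}} (hA : ClosedAt S g A)
    {f : ℕ → ℕ} (hf : Function.Injective f) (hfA : range f = A) {n : ℕ} (ψ : FmI L n)
    (hψ : ordOf (rk ψ) ≤ g) (v : Fin n → ℕ) : Sat (pl S f) ψ v ↔ Sat S ψ (f ∘ v) := by
  have h1 : BFR S S univ A g (range fun i => (f (v i), f (v i))) := by
    refine closed_rel hA g le_rfl _ (finite_range _) ?_ (BFR.refl S univ g ?_)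
    · rintro _ ⟨i, rfl⟩
      rw [← hfA]
      exact mem_range_self _
    · rintro _ ⟨i, rfl⟩
      exact ⟨mem_univ _, rfl⟩
  have h2 : BFR S (pl S f) univ univ g (range fun i => (f (v i), v i)) := by
    rw [← hfA] at h1
    refine BFR_pl' hf h1 ?_
    rintro _ ⟨i, rfl⟩
    exact ⟨i, rfl⟩
  exact (sat_of_BF ψ (f ∘ v) v (BFR.bf _ (h2.mono hψ))).symm

end

theorem finBdry_of_elem [∀ n, IsEmpty (L.Functions n)] {K : Set (L.Structure ℕ)}
    {d : Ordinal.{0}} (hd : d < om1) (hcl : ClosedLev K d) (Ψ : ℕ → (n : ℕ) × FmI L n)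
    (h : ∀ S ∈ K, ∀ A ∈ K, ∀ f : ℕ → ℕ, Elem Ψ A S f → ∀ c, c ∉ range f →
      (bdry (gaif S) (range f) c).Finite) :
    ∃ g < om1, ∀ S ∈ K, FinBdry S g := by
  let r : Rk := .sup fun n => rk (Ψ n).2
  refine ⟨max d (ordOf r), max_lt hd (ordOf_lt r), fun S hS A hAc hA c hc => ?_⟩
  obtain ⟨f, hf, hfA⟩ := exists_enum hAc (fun F hF c => by
    obtain ⟨c', hc', h⟩ := hA F hF c
    exact ⟨c', hc', h.mono bot_le⟩)
  have hK : pl S f ∈ K := by
    refine hcl S hS _ ?_
    have h4 : BFR S S univ A d ∅ := closed_rel hA d (le_max_left _ _) ∅ finite_empty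
      (fun a ha => absurd ha (notMem_empty a))
      (BFR.refl S univ d fun a ha => absurd ha (notMem_empty a))
    rw [← hfA] at h4
    exact BFR_pl' hf h4 fun a ha => absurd ha (notMem_empty a)
  have := h S hS _ hK f ⟨hf, fun n R v => Iff.rfl, fun k v => ?_⟩ c (by rw [hfA]; exact hc)
  · rwa [hfA] at this
  · refine sat_of_closedAt hA hf hfA (Ψ k).2 ?_ v
    refine le_trans ?_ (le_max_right _ _)
    exact Ordinal.le_iSup (fun n => ordOf (rk (Ψ n).2)) k

end Pool.Agent.Helper6.VC
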