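import Pool.Agent.Helper6.VC.FB

/-!
# Fat subdivisions of the infinite complete graph
-/

set_option autoImplicit false
set_option linter.unusedSectionVars false
set_option linter.unusedVariables false

namespace Pool.Agent.Helper6.VC

open Set Pool.Agent.Helper5 Pool.Agent.Helper5.DU Pool.Agent.Helper6.Str Pool.Agent.Helper79.VC
  Pool.Agent.Helper97.VC

variable {L : FirstOrder.Language.{0, 0}} {M N : Type}

theorem gaifOf_mono {𝓕 𝓖 : Set ((n : ℕ) × L.Relations n)} (h : 𝓕 ⊆ 𝓖) {S : L.Structure M}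
    {x y : M} (hxy : (gaifOf 𝓕 S).Adj x y) : (gaifOf 𝓖 S).Adj x y := by
  obtain ⟨hne, r, hr, h1⟩ := hxy
  exact ⟨hne, r, h hr, h1⟩

theorem gaif_of_gaifOf {𝓕 : Set ((n : ℕ) × L.Relations n)} {S : L.Structure M}
    {x y : M} (hxy : (gaifOf 𝓕 S).Adj x y) : (gaif S).Adj x y := by
  obtain ⟨hne, r, hr, v, h1, h2, h3⟩ := hxy
  exact ⟨hne, r.1, r.2, v, h1, h2, h3⟩

/-- a path uses finitely many relation symbols -/
theorem exists_finite_symbols {S : L.Structure M} : ∀ l : List M,
    List.IsChain (gaif S).Adj l → ∃ 𝓕 : Set ((n : ℕ) × L.Relations n), 𝓕.Finite ∧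
      List.IsChain (gaifOf 𝓕 S).Adj l
  | [], _ => ⟨∅, finite_empty, List.IsChain.nil⟩
  | [x], _ => ⟨∅, finite_empty, List.IsChain.singleton x⟩
  | x :: y :: l, h => by
    rw [List.isChain_cons_cons] at h
    obtain ⟨𝓕, hF, h1⟩ := exists_finite_symbols (y :: l) h.2
    obtain ⟨hne, n, R, v, h2, h3, h4⟩ := h.1
    refine ⟨insert ⟨n, R⟩ 𝓕, hF.insert _, ?_⟩
    rw [List.isChain_cons_cons]
    exact ⟨⟨hne, ⟨n, R⟩, mem_insert _ _, v, h2, h3, h4⟩,
      h1.imp fun a b hab => gaifOf_mono (subset_insert _ _) hab⟩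

/-- adjacency is preserved by the back and forth relation of level omega -/
theorem gaifOf_of_BFR {S : L.Structure M} {S' : L.Structure N}
    {𝓕 : Set ((n : ℕ) × L.Relations n)} {p : Set (M × N)}
    (h : BFR S S' univ univ Ordinal.omega0 p) {x y : M} {x' y' : N} (hx : (x, x') ∈ p)
    (hy : (y, y') ∈ p) (hxy : (gaifOf 𝓕 S).Adj x y) : (gaifOf 𝓕 S').Adj x' y' := by
  obtain ⟨hne, r, hr, v, h1, ⟨i, hi⟩, ⟨j, hj⟩⟩ := hxy
  have h2 : BFR S S' univ univ (0 + (r.1 : Ordinal.{0})) p := by
    refine h.mono ?_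
    rw [zero_add]
    exact (Ordinal.natCast_lt_omega0 _).le
  obtain ⟨w, -, h3⟩ := BFR.forth_many r.1 h2 v fun _ => mem_univ _
  have h4 := h3.atEq
  refine ⟨fun he => hne ?_, r, hr, w, ?_, ⟨i, ?_⟩, ⟨j, ?_⟩⟩
  · exact (h4.1 _ (Or.inl hx) _ (Or.inl hy)).mpr he
  · exact (h4.2 r.1 r.2 (fun k => (v k, w k)) fun k => Or.inr ⟨k, rfl⟩).mp h1
  · exact (h4.1 (v i, w i) (Or.inr ⟨i, rfl⟩) _ (Or.inl hx)).mp hi
  · exact (h4.1 (v j, w j) (Or.inr ⟨j, rfl⟩) _ (Or.inl hy)).mp hj

/-- a path through the complement of a closed set can be moved away from every finite set -/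
theorem exists_moved {S : L.Structure M} {A : Set M} {g : Ordinal.{0}}
    (hg : Ordinal.omega0 + Ordinal.omega0 ≤ g) (hA : ClosedAt S g A) {a a' : M} (ha : a ∈ A)
    (ha' : a' ∈ A) {P : List M} (hP : ∀ z ∈ P, z ∉ A) {𝓕 : Set ((n : ℕ) × L.Relations n)}
    (hnd : (a :: (P ++ [a'])).Nodup) (hch : List.IsChain (gaifOf 𝓕 S).Adj (a :: (P ++ [a'])))
    {Z : Set M} (hZ : Z.Finite) :
    ∃ P' : List M, P'.length = P.length ∧ (∀ z ∈ P', z ∉ Z) ∧
        (a :: (P' ++ [a'])).Nodup ∧ List.IsChain (gaifOf 𝓕 S).Adj (a :: (P' ++ [a'])) := by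
  classical
  -- enumerate Z
  obtain ⟨n, z, hz⟩ : ∃ (n : ℕ) (z : Fin n → M), ∀ x ∈ Z, ∃ i, z i = x := by
    refine ⟨hZ.toFinset.card, fun i => (hZ.toFinset.equivFin.symm i : M), fun x hx => ?_⟩
    exact ⟨hZ.toFinset.equivFin ⟨x, hZ.mem_toFinset.mpr hx⟩, by simp⟩
  set w : Ordinal.{0} := Ordinal.omega0 with hw
  set p0 : Set (M × M) := {(a, a), (a', a')} with hp0
  have hp0A : ∀ q ∈ p0, q.2 ∈ A := by
    rintro q (rfl | rfl)
    · exact ha
    · exact ha'
  have hle : ∀ k : ℕ, w + (k : Ordinal.{0}) ≤ g := by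
    intro k
    refine le_trans ?_ hg
    gcongr
    exact (Ordinal.natCast_lt_omega0 _).le
  have h1 : BFR S S univ A (w + (P.length : ℕ) + (n : ℕ)) p0 := by
    refine closed_rel hA _ ?_ p0 (by simp [hp0]) hp0A (BFR.refl S univ _ ?_)
    · rw [add_assoc, ← Nat.cast_add]
      exact hle _
    · rintro q (rfl | rfl)
      · exact ⟨mem_univ _, rfl⟩
      · exact ⟨mem_univ _, rfl⟩
  obtain ⟨y, hy, h2⟩ := BFR.forth_many n h1 z fun _ => mem_univ _
  -- back to the whole structure
  have h3 : BFR S S A univ (w + (P.length : ℕ))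
      ((fun q : M × M => (q.2, q.2)) '' (p0 ∪ range fun i => (z i, y i))) := by
    have h4 : BFR S S univ A (w + (P.length : ℕ))
        ((fun q : M × M => (q.2, q.2)) '' (p0 ∪ range fun i => (z i, y i))) := by
      refine closed_rel hA _ (hle _) _ ?_ ?_ (BFR.refl S univ _ ?_)
      · exact (((by simp [hp0] : p0.Finite)).union (finite_range _)).image _
      · rintro _ ⟨q, (hq | ⟨i, rfl⟩), rfl⟩
        · exact hp0A q hq
        · exact hy i
      · rintro _ ⟨q, _, rfl⟩
        exact ⟨mem_univ _, rfl⟩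
    refine h4.symm ?_
    rintro _ ⟨q, hq, rfl⟩
    exact ⟨q, hq, rfl⟩
  have h4 : BFR S S univ univ (w + (P.length : ℕ)) (p0 ∪ range fun i => (z i, y i)) := by
    refine h2.trans h3 ?_
    intro q hq
    exact ⟨q.2, hq, ⟨q, hq, rfl⟩⟩
  -- move the path
  obtain ⟨x, -, h5⟩ := BFR.back_many P.length h4 P.get fun _ => mem_univ _
  set p1 : Set (M × M) := (p0 ∪ range fun i => (z i, y i)) ∪ range fun i => (x i, P.get i) with hp1
  have h6 := h5.atEq
  have haa : (a, a) ∈ p1 := Or.inl (Or.inl (by simp [hp0]))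
  have haa' : (a', a') ∈ p1 := Or.inl (Or.inl (by simp [hp0]))
  have hmem : ∀ v ∈ a :: (P ++ [a']), ∃ u, (u, v) ∈ p1 := by
    intro v hv
    simp only [List.mem_cons, List.mem_append, List.not_mem_nil, or_false] at hv
    rcases hv with rfl | hv | rfl
    · exact ⟨_, haa⟩
    · obtain ⟨i, hi⟩ := List.get_of_mem hv
      exact ⟨x i, Or.inr ⟨i, Prod.ext rfl hi⟩⟩
    · exact ⟨_, haa'⟩
  have hex : ∀ v, ∃ u, v ∈ a :: (P ++ [a']) → (u, v) ∈ p1 := by
    intro v
    by_cases hv : v ∈ a :: (P ++ [a'])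
    · obtain ⟨u, hu⟩ := hmem v hv
      exact ⟨u, fun _ => hu⟩
    · exact ⟨v, fun h => absurd h hv⟩
  choose u hu using hex
  have hua : u a = a := by
    have := h6.1 (u a, a) (hu a (by simp)) (a, a) haa
    exact this.mpr rfl
  have hua' : u a' = a' := by
    have := h6.1 (u a', a') (hu a' (by simp)) (a', a') haa'
    exact this.mpr rfl
  have hmap : a :: (P.map u ++ [a']) = (a :: (P ++ [a'])).map u := by
    simp [hua, hua']
  refine ⟨P.map u, by simp, ?_, ?_, ?_⟩
  · intro v hv hvZ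
    obtain ⟨t, ht, rfl⟩ := List.mem_map.mp hv
    obtain ⟨i, hi⟩ := hz _ hvZ
    have h7 := h6.1 (u t, t) (hu t (by simp [ht])) (z i, y i) (Or.inl (Or.inr ⟨i, rfl⟩))
    have h8 : t = y i := h7.mp hi.symm
    exact hP t ht (h8 ▸ hy i)
  · rw [hmap]
    refine List.Nodup.map_on ?_ hnd
    intro s hs t ht hst
    exact (h6.1 (u s, s) (hu s hs) (u t, t) (hu t ht)).mp hst
  · rw [hmap, List.isChain_map]
    refine List.IsChain.imp_of_mem_imp ?_ hch
    intro s t hs ht hst
    refine gaifOf_of_BFR (p := Prod.swap ⁻¹' p1) (BFR.swap h5) ?_ ?_ hst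
    · exact hu s hs
    · exact hu t ht

/-- a path through the complement, with at least one inner vertex -/
theorem exists_inner' {V : Type} {G : SimpleGraph V} {Z : Set V} {f g : V} (hfg : f ≠ g)
    (hf : f ∈ Z) (hg : g ∈ Z) (hl : Lnk G Z f g) :
    ∃ P : List V, 0 < P.length ∧ (f :: (P ++ [g])).Nodup ∧ List.IsChain G.Adj (f :: (P ++ [g])) ∧
      ∀ v ∈ P, v ∉ Z := by
  obtain ⟨x, y, h1, h2, h3, h4, h5⟩ := hl
  obtain ⟨P, hP1, hP2, hP3, hP4, hP5⟩ := exists_path_of_conn h3 h5
  refine ⟨P, ?_, ?_, ?_, hP3⟩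
  · cases P with
    | nil => simp at hP4
    | cons a l => simp
  · rw [List.nodup_cons]
    refine ⟨?_, ?_⟩
    · simp only [List.mem_append, List.mem_singleton, not_or]
      exact ⟨fun h => hP3 f h hf, hfg⟩
    · rw [List.nodup_append]
      refine ⟨hP1, by simp, ?_⟩
      intro a ha b hb
      simp only [List.mem_singleton] at hb
      subst hb
      rintro rfl
      exact hP3 _ ha hg
  · rw [List.isChain_cons]
    refine ⟨?_, ?_⟩
    · intro z hz
      have : (P ++ [g]).head? = some x := by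
        cases P with
        | nil => simp at hP4
        | cons a l => simpa using hP4
      rw [this] at hz
      simp only [Option.mem_def, Option.some.injEq] at hz
      subst hz
      exact h1
    · rw [List.isChain_append]
      refine ⟨hP2, by simp, ?_⟩
      intro a ha b hb
      rw [hP5] at ha
      simp only [Option.mem_def, Option.some.injEq, List.head?_cons] at ha hb
      subst ha
      subst hb
      exact h2

/-- a component with infinite boundary outside a closed set gives a fat subdivision -/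
theorem finBdry_of_not_fat {S : L.Structure M} {g : Ordinal.{0}}
    (hg : Ordinal.omega0 + Ordinal.omega0 ≤ g) (h : ¬ HasFatTK S) : FinBdry S g := by
  intro A hAc hA c hc
  by_contra hinf
  have hinf' : (bdry (gaif S) A c).Infinite := hinf
  refine h ⟨fun n => (hinf'.natEmbedding _ n : M), ?_, ?_⟩
  · intro m n hmn
    exact (hinf'.natEmbedding _).injective (Subtype.ext hmn)
  · intro i j hij
    set a := (hinf'.natEmbedding _ i : M) with ha
    set a' := (hinf'.natEmbedding _ j : M) with ha'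
    obtain ⟨haA, x, hx, hax⟩ : a ∈ bdry (gaif S) A c := (hinf'.natEmbedding _ i).2
    obtain ⟨haA', x', hx', hax'⟩ : a' ∈ bdry (gaif S) A c := (hinf'.natEmbedding _ j).2
    have hne : a ≠ a' := by
      intro he
      exact hij.ne ((hinf'.natEmbedding _).injective (Subtype.ext he))
    have hl : Lnk (gaif S) A a a' := ⟨x, x', hax, hax'.symm, conn_notMem hc hx,
      conn_notMem hc hx', conn_trans (conn_symm hx) hx'⟩
    obtain ⟨P, hP0, hP1, hP2, hP3⟩ := exists_inner' hne haA haA' hl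
    obtain ⟨𝓕, hF, hP4⟩ := exists_finite_symbols _ hP2
    refine ⟨𝓕, P.length, hF, hP0, fun Z hZ => ?_⟩
    exact exists_moved hg hA haA haA' hP3 hP1 hP4 hZ

/-! ### fat subdivisions contain ordinary ones -/

/-- paths from finitely many branch vertices to one more branch vertex -/
theorem exists_fan {V : Type} {G : SimpleGraph V} {b : ℕ → V} (k : ℕ)
    (h : ∀ i, i ≠ k → ∀ Z : Set V, Z.Finite → ∃ P : List V, (∀ z ∈ P, z ∉ Z) ∧
      (b i :: (P ++ [b k])).Nodup ∧ List.IsChain G.Adj (b i :: (P ++ [b k])))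
    {Z : Set V} (hZ : Z.Finite) (I : Finset ℕ) (hI : k ∉ I) :
    ∃ Q : ℕ → List V, (∀ i ∈ I, (∀ z ∈ Q i, z ∉ Z) ∧ (b i :: (Q i ++ [b k])).Nodup ∧
      List.IsChain G.Adj (b i :: (Q i ++ [b k]))) ∧
      ∀ i ∈ I, ∀ j ∈ I, i ≠ j → List.Disjoint (Q i) (Q j) := by
  classical
  induction I using Finset.induction_on with
  | empty => exact ⟨fun _ => [], fun i hi => absurd hi (by simp), fun i hi => absurd hi (by simp)⟩
  | insert a I ha ih =>
    rw [Finset.mem_insert, not_or] at hI
    obtain ⟨Q, hQ1, hQ2⟩ := ih hI.2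
    obtain ⟨P, hP1, hP2, hP3⟩ := h a (fun h => hI.1 h.symm) (Z ∪ ⋃ i ∈ I, {v | v ∈ Q i})
      (hZ.union ((Finset.finite_toSet I).biUnion fun i _ => List.finite_toSet _))
    refine ⟨Function.update Q a P, ?_, ?_⟩
    · intro i hi
      by_cases hia : i = a
      · subst hia
        rw [Function.update_self]
        exact ⟨fun z hz hzZ => hP1 z hz (Or.inl hzZ), hP2, hP3⟩
      · rw [Function.update_of_ne hia]
        exact hQ1 i ((Finset.mem_insert.mp hi).resolve_left hia)
    · have key : ∀ i ∈ I, List.Disjoint P (Q i) := by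
        intro i hi v hv hv'
        refine hP1 v hv (Or.inr ?_)
        simp only [mem_iUnion]
        exact ⟨i, hi, hv'⟩
      intro i hi j hj hij
      by_cases hia : i = a
      · subst hia
        rw [Function.update_self, Function.update_of_ne (Ne.symm hij)]
        exact key j ((Finset.mem_insert.mp hj).resolve_left (Ne.symm hij))
      · by_cases hja : j = a
        · subst hja
          rw [Function.update_self, Function.update_of_ne hia]
          exact (key i ((Finset.mem_insert.mp hi).resolve_left hia)).symm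
        · rw [Function.update_of_ne hia, Function.update_of_ne hja]
          exact hQ2 i ((Finset.mem_insert.mp hi).resolve_left hia) j
            ((Finset.mem_insert.mp hj).resolve_left hja) hij

/-- **Greedy construction** with finite sets. -/
theorem hasTK_of_finite {V : Type} (G : SimpleGraph V) (b : ℕ → V) (hb : Function.Injective b)
    (h : ∀ i j, i ≠ j → ∀ Z : Set V, Z.Finite → ∃ P : List V, (∀ z ∈ P, z ∉ Z) ∧
      (b i :: (P ++ [b j])).Nodup ∧ List.IsChain G.Adj (b i :: (P ++ [b j]))) : HasTK G := by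
  classical
  -- one step
  have hstep : ∀ (I : Finset ℕ) (U : Finset V), ∃ (k : ℕ) (Q : ℕ → List V), k ∉ I ∧ b k ∉ U ∧
      (∀ i ∈ I, (∀ z ∈ Q i, z ∉ U) ∧ (b i :: (Q i ++ [b k])).Nodup ∧
        List.IsChain G.Adj (b i :: (Q i ++ [b k]))) ∧
      ∀ i ∈ I, ∀ j ∈ I, i ≠ j → List.Disjoint (Q i) (Q j) := by
    intro I U
    obtain ⟨k, hk⟩ : ∃ k, k ∉ ((I : Set ℕ) ∪ b ⁻¹' (U : Set V)) := by
      have hfin : ((I : Set ℕ) ∪ b ⁻¹' (U : Set V)).Finite :=
        (I.finite_toSet).union (U.finite_toSet.preimage hb.injOn)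
      exact hfin.exists_notMem
    rw [mem_union, not_or] at hk
    obtain ⟨Q, hQ1, hQ2⟩ := exists_fan (b := b) (G := G) k (fun i hi => h i k hi)
      (U.finite_toSet) I hk.1
    exact ⟨k, Q, hk.1, hk.2, hQ1, hQ2⟩
  choose k Q hkI hkU hQ hQd using hstep
  -- the states
  let nx : Finset ℕ × Finset V → Finset ℕ × Finset V := fun s =>
    (insert (k s.1 s.2) s.1, insert (b (k s.1 s.2)) (s.2 ∪ s.1.biUnion fun i =>
      (Q s.1 s.2 i).toFinset))
  let st : ℕ → Finset ℕ × Finset V := fun n => Nat.rec (∅, ∅) (fun _ s => nx s) n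
  have hst : ∀ n, st (n + 1) = nx (st n) := fun n => rfl
  let s : ℕ → ℕ := fun n => k (st n).1 (st n).2
  let R : ℕ → ℕ → List V := fun i j => Q (st j).1 (st j).2 (s i)
  have hmono1 : ∀ m n, m ≤ n → (st m).1 ⊆ (st n).1 := by
    intro m n hmn
    induction n, hmn using Nat.le_induction with
    | base => exact Finset.Subset.refl _
    | succ n _ ih => exact ih.trans (by rw [hst]; exact Finset.subset_insert _ _)
  have hmono2 : ∀ m n, m ≤ n → (st m).2 ⊆ (st n).2 := by
    intro m n hmn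
    induction n, hmn using Nat.le_induction with
    | base => exact Finset.Subset.refl _
    | succ n _ ih =>
      exact ih.trans (by
        rw [hst]
        exact Finset.subset_union_left.trans (Finset.subset_insert _ _))
  have hs1 : ∀ i n, i < n → s i ∈ (st n).1 := by
    intro i n hin
    exact hmono1 (i + 1) n hin (by rw [hst]; exact Finset.mem_insert_self _ _)
  have hb2 : ∀ i n, i < n → b (s i) ∈ (st n).2 := by
    intro i n hin
    exact hmono2 (i + 1) n hin (by rw [hst]; exact Finset.mem_insert_self _ _)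
  have hR2 : ∀ i j n, i < j → j < n → ∀ v ∈ R i j, v ∈ (st n).2 := by
    intro i j n hij hjn v hv
    refine hmono2 (j + 1) n hjn ?_
    rw [hst]
    refine Finset.mem_insert_of_mem (Finset.mem_union_right _ ?_)
    rw [Finset.mem_biUnion]
    exact ⟨s i, hs1 i j hij, List.mem_toFinset.mpr hv⟩
  have hsne : ∀ i j, i < j → s i ≠ s j := by
    intro i j hij he
    exact hkI (st j).1 (st j).2 (by
      have := hs1 i j hij
      rw [he] at this
      exact this)
  have hinj : Function.Injective s := by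
    intro i j hij
    by_contra hne
    rcases lt_or_gt_of_ne hne with h1 | h1
    · exact hsne i j h1 hij
    · exact hsne j i h1 hij.symm
  have hdis : ∀ i j i' j', i < j → i' < j' → j < j' → List.Disjoint (R i j) (R i' j') := by
    intro i j i' j' hij hij' hjj v hv hv'
    exact (hQ (st j').1 (st j').2 (s i') (hs1 i' j' hij')).1 v hv' (hR2 i j j' hij hjj v hv)
  refine ⟨fun n => b (s n), R, hb.comp hinj, fun i j hij => ?_, fun i j m hij hm => ?_, ?_⟩
  · exact (hQ (st j).1 (st j).2 (s i) (hs1 i j hij)).2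
  · rcases lt_trichotomy m j with h1 | h1 | h1
    · exact (hQ (st j).1 (st j).2 (s i) (hs1 i j hij)).1 _ hm (hb2 m j h1)
    · subst h1
      have h2 := (hQ (st m).1 (st m).2 (s i) (hs1 i m hij)).2.1
      rw [List.nodup_cons, List.nodup_append] at h2
      exact h2.2.2.2 _ hm (b (s m)) (by simp [s]) rfl
    · exact hkU (st m).1 (st m).2 (hR2 i j m hij h1 _ hm)
  · intro i j i' j' hij hij' hne
    rcases lt_trichotomy j j' with h1 | h1 | h1
    · exact hdis _ _ _ _ hij hij' h1
    · subst h1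
      have hii : i ≠ i' := fun h => hne (by rw [h])
      exact hQd (st j).1 (st j).2 (s i) (hs1 i j hij) (s i') (hs1 i' j hij')
        fun h => hii (hinj h)
    · exact (hdis _ _ _ _ hij' hij h1).symm

theorem hasTK_of_fat {S : L.Structure M} (h : HasFatTK S) : HasTK (gaif S) := by
  obtain ⟨b, hb, hP⟩ := h
  have key : ∀ i j, i < j → ∀ Z : Set M, Z.Finite → ∃ P : List M, (∀ z ∈ P, z ∉ Z) ∧
      (b i :: (P ++ [b j])).Nodup ∧ List.IsChain (gaif S).Adj (b i :: (P ++ [b j])) := by
    intro i j hij Z hZ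
    obtain ⟨𝓕, m, -, -, h1⟩ := hP i j hij
    obtain ⟨P, -, h2, h3, h4⟩ := h1 Z hZ
    exact ⟨P, h2, h3, h4.imp fun a b hab => gaif_of_gaifOf hab⟩
  refine hasTK_of_finite (gaif S) b hb fun i j hij Z hZ => ?_
  rcases lt_or_gt_of_ne hij with h1 | h1
  · exact key i j h1 Z hZ
  · obtain ⟨P, h2, h3, h4⟩ := key j i h1 Z hZ
    have hrev : b i :: (P.reverse ++ [b j]) = (b j :: (P ++ [b i])).reverse := by simp
    refine ⟨P.reverse, fun z hz => h2 z (List.mem_reverse.mp hz), ?_, ?_⟩
    · rw [hrev]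
      exact List.nodup_reverse.mpr h3
    · rw [hrev, List.isChain_reverse]
      exact h4.imp fun a b hab => hab.symm

end Pool.Agent.Helper6.VC
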