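import Pool.Agent.Helper6.VC.Fat

/-!
# The dichotomy for theories with finite boundaries
-/

set_option autoImplicit false
set_option linter.unusedSectionVars false
set_option linter.unusedVariables false

namespace Pool.Agent.Helper6.VC

open Set Pool.Agent.Helper5 Pool.Agent.Helper5.DU Pool.Agent.Helper6.Str Pool.Agent.Helper79.VC
  Pool.Agent.Helper97.VC

variable {L : FirstOrder.Language.{0, 0}}

/-- the main dichotomy in terms of finite boundaries -/
theorem dichotomy_of_finBdry (hc : Countable L.Symbols) [hrel : ∀ n, IsEmpty (L.Functions n)]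
    (T : L.Theory) (φ : FmI L 0)
    (h : ∃ g < om1, ∀ S : L.Structure ℕ, IsMod T φ S → FinBdry S g) :
    (∃ g : ℕ → L.Structure ℕ, ∀ S : L.Structure ℕ, IsMod T φ S →
        ∃ n : ℕ, Nonempty (@FirstOrder.Language.Equiv L ℕ ℕ S (g n))) ∨
    (∃ f : (ℕ → Bool) → L.Structure ℕ, (∀ x : ℕ → Bool, IsMod T φ (f x)) ∧
        (∀ x y : ℕ → Bool,
            Nonempty (@FirstOrder.Language.Equiv L ℕ ℕ (f x) (f y)) → x = y) ∧
        (∀ (n : ℕ) (R : L.Relations n) (a : Fin n → ℕ),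
            IsClopen {x : ℕ → Bool | @FirstOrder.Language.Structure.RelMap L ℕ (f x) n R a})) := by
  have hcr : ∀ n, Countable (L.Relations n) := countable_relations hc
  let K : Set (L.Structure ℕ) := {S | IsMod T φ S}
  obtain ⟨hK, d, hd, hcl⟩ := exists_level hc T φ (K := K) fun S => Iff.rfl
  obtain ⟨γ, hγ, hFB⟩ := h
  by_cases hP : PerfK K
  · obtain ⟨f, hf1, hf2, hf3⟩ := hP
    exact Or.inr ⟨f, hf1, fun x y h => hf2 x y ((nonempty_equiv_iff _ _).mp h), hf3⟩
  · obtain ⟨g, hg⟩ := main_finBdry K hK d hd hcl γ hγ (fun S hS => hFB S hS) hP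
    refine Or.inl ⟨g, fun S h1 => ?_⟩
    obtain ⟨n, hn⟩ := hg S h1
    exact ⟨n, (nonempty_equiv_iff S (g n)).mpr hn⟩

theorem omega_add_omega_lt_om1 : Ordinal.omega0.{0} + Ordinal.omega0 < om1 :=
  add_lt_om1 omega_lt_om1 omega_lt_om1

theorem finBdry_of_cases (hc : Countable L.Symbols) [hrel : ∀ n, IsEmpty (L.Functions n)]
    (T : L.Theory) (φ : FmI L 0)
    (h : (∃ Ψ : ℕ → (n : ℕ) × FmI L n, FiniteBoundaries T φ Ψ) ∨
      (∀ S : L.Structure ℕ, IsMod T φ S → ¬ HasFatTK S) ∨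
      (∀ S : L.Structure ℕ, IsMod T φ S → ¬ HasTK (gaif S))) :
    ∃ g < om1, ∀ S : L.Structure ℕ, IsMod T φ S → FinBdry S g := by
  rcases h with ⟨Ψ, h⟩ | h | h
  · let K : Set (L.Structure ℕ) := {S | IsMod T φ S}
    obtain ⟨hK, d, hd, hcl⟩ := exists_level hc T φ (K := K) fun S => Iff.rfl
    obtain ⟨g, hg, h1⟩ := finBdry_of_elem hd hcl Ψ (fun S hS A hA f hf => h A S hA hS f hf)
    exact ⟨g, hg, fun S hS => h1 S hS⟩
  · exact ⟨_, omega_add_omega_lt_om1, fun S hS => finBdry_of_not_fat le_rfl (h S hS)⟩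
  · exact ⟨_, omega_add_omega_lt_om1, fun S hS => finBdry_of_not_fat le_rfl
      fun hf => h S hS (hasTK_of_fat hf)⟩

end Pool.Agent.Helper6.VC
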