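import Pool.Agent.Helper6.VC.Comp
import Pool.Agent.VB.B

/-!
# Gluing pieces over a common finite set, and the counting argument
-/

set_option autoImplicit false
set_option linter.unusedSectionVars false
set_option linter.unusedVariables false

namespace Pool.Agent.Helper79.VC

open Set Pool.Agent.Helper5.DU Pool.Agent.Helper6.Str

variable {L : FirstOrder.Language.{0, 0}} {M N P : Type}

section PE
variable {n : ℕ} {S : L.Structure M} {s : Fin n → M} {C : Set M} {S' : L.Structure N}
  {s' : Fin n → N} {C' : Set N} {S'' : L.Structure P} {s'' : Fin n → P} {C'' : Set P}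
  {g g' : Ordinal.{0}}

theorem PE.refl (S : L.Structure M) (s : Fin n → M) (C : Set M) (g : Ordinal.{0}) :
    PE S s C S s C g := by
  refine BFR.refl S _ g ?_
  rintro _ ⟨i, rfl⟩
  exact ⟨Or.inr (mem_range_self i), rfl⟩

theorem PE.symm (h : PE S s C S' s' C' g) : PE S' s' C' S s C g := by
  refine BFR.symm h ?_
  rintro _ ⟨i, rfl⟩
  exact ⟨i, rfl⟩

theorem PE.trans (h : PE S s C S' s' C' g) (h' : PE S' s' C' S'' s'' C'' g) :
    PE S s C S'' s'' C'' g := by
  refine BFR.trans h h' ?_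
  rintro _ ⟨i, rfl⟩
  exact ⟨s' i, ⟨i, rfl⟩, ⟨i, rfl⟩⟩

theorem PE.mono (h : PE S s C S' s' C' g) (hg : g' ≤ g) : PE S s C S' s' C' g' :=
  BFR.mono hg h

theorem PE.atEq (h : PE S s C S' s' C' g) : AtEq S S' (range fun i => (s i, s' i)) :=
  BFR.atEq h

theorem PE.injective (h : PE S s C S' s' C' g) (hs : Function.Injective s) :
    Function.Injective s' := by
  intro i j hij
  apply hs
  exact (h.atEq.1 (s i, s' i) ⟨i, rfl⟩ (s j, s' j) ⟨j, rfl⟩).mpr hij

end PE

/-- In a block decomposition, connectedness outside `Q` stays in a block. -/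
theorem Blocks.conn {I : Type} {S : L.Structure M} {Q : Set M} {B : I → Set M}
    (hB : Blocks S Q B) {i : I} {x y : M} (hx : x ∈ B i) (h : Conn (gaif S) Q x y) : y ∈ B i := by
  induction h with
  | refl => exact hx
  | tail h1 h2 ih =>
    rename_i b c
    obtain ⟨⟨hne, n, R, v, hv, ⟨j, hj⟩, ⟨k, hk⟩⟩, hbQ, hcQ⟩ := h2
    rcases hB.rel n R v hv with ⟨l, hl⟩ | hl
    · have h3 : b ∈ B l := by
        rw [← hj]
        exact (hl j).resolve_right (by rw [hj]; exact hbQ)
      have h4 : c ∈ B l := by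
        rw [← hk]
        exact (hl k).resolve_right (by rw [hk]; exact hcQ)
      have := hB.disj i l b ih h3
      rw [this]
      exact h4
    · exact absurd (hj ▸ hl j) hbQ

/-- A tuple of a relation meeting a component lies in the component together with `Q`. -/
theorem IsCpt.rel {S : L.Structure M} {Q C : Set M} (hC : IsCpt (gaif S) Q C) {n : ℕ}
    {R : L.Relations n} {v : Fin n → M} (hv : S.RelMap R v) {j : Fin n} (hj : v j ∈ C) (k : Fin n) :
    v k ∈ C ∪ Q := by
  rcases (blocks_cpt S Q).rel n R v hv with ⟨D, hD⟩ | hD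
  · have h1 : v j ∈ D.1 := (hD j).resolve_right (hC.disjQ hj)
    have h2 : D.1 = C := D.2.eq_of_mem hC h1 hj
    rw [← h2]
    exact hD k
  · exact absurd (hD j) (hC.disjQ hj)

/-- Gluing of infinitely many pieces over a common finite set. -/
theorem exists_glue [∀ n, IsEmpty (L.Functions n)] {I : Type} [Countable I] [Infinite I] {n : ℕ}
    (A : I → L.Structure ℕ) (a : I → Fin n → ℕ) (C : I → Set ℕ)
    (ha : ∀ i, Function.Injective (a i)) (hC : ∀ i, IsCpt (gaif (A i)) (range (a i)) (C i))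
    (hat : ∀ i j, AtEq (A i) (A j) (range fun k => (a i k, a j k))) :
    ∃ (G : L.Structure ℕ) (t : Fin n → ℕ) (B : I → Set ℕ), Function.Injective t ∧
      Blocks G (range t) B ∧ (∀ i, IsCpt (gaif G) (range t) (B i)) ∧
      ∀ i g, PE (A i) (a i) (C i) G t (B i) g := by
  classical
  let W : Type := Fin n ⊕ (Σ i : I, C i)
  have hWi : Infinite (Σ i : I, C i) := by
    choose x hx using fun i => (hC i).nonempty
    exact Infinite.of_injective (fun i => (⟨i, ⟨x i, hx i⟩⟩ : Σ i : I, C i))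
      fun i j hij => congrArg Sigma.fst hij
  have hWinf : Infinite W := Infinite.of_injective (Sum.inr : (Σ i : I, C i) → W) Sum.inr_injective
  have hWc : Countable W := inferInstance
  obtain ⟨hden⟩ := nonempty_denumerable W
  let η : W ≃ ℕ := Denumerable.eqv W
  let w0 : W := Classical.arbitrary W
  let em : I → ℕ → ℕ := fun i x => η (if h : x ∈ range (a i) then Sum.inl h.choose else
    if h' : x ∈ C i then Sum.inr ⟨i, ⟨x, h'⟩⟩ else w0)
  let t : Fin n → ℕ := fun k => η (Sum.inl k)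
  have e1 : ∀ i k, em i (a i k) = t k := by
    intro i k
    have h : a i k ∈ range (a i) := mem_range_self k
    have h2 : h.choose = k := ha i h.choose_spec
    simp only [em, dif_pos h, h2, t]
  have e2 : ∀ i x (hx : x ∈ C i), em i x = η (Sum.inr ⟨i, ⟨x, hx⟩⟩) := by
    intro i x hx
    have h : x ∉ range (a i) := (hC i).disjQ hx
    simp only [em, dif_neg h, dif_pos hx]
  have e3 : ∀ i j x y, x ∈ C i ∪ range (a i) → y ∈ C j ∪ range (a j) → em i x = em j y →
      (∃ k, x = a i k ∧ y = a j k) ∨ (i = j ∧ x = y ∧ x ∈ C i) := by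
    intro i j x y hx hy hxy
    rcases hx with hx | ⟨k, rfl⟩ <;> rcases hy with hy | ⟨l, rfl⟩
    · rw [e2 i x hx, e2 j y hy, η.apply_eq_iff_eq, Sum.inr.injEq, Sigma.mk.injEq] at hxy
      obtain ⟨rfl, h⟩ := hxy
      rw [heq_eq_eq, Subtype.mk.injEq] at h
      exact Or.inr ⟨rfl, h, hx⟩
    · rw [e2 i x hx, e1 j l] at hxy
      have := η.apply_eq_iff_eq.mp hxy
      exact absurd this (by simp)
    · rw [e2 j y hy, e1 i k] at hxy
      have := η.apply_eq_iff_eq.mp hxy
      exact absurd this (by simp)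
    · rw [e1 i k, e1 j l] at hxy
      have := η.apply_eq_iff_eq.mp hxy
      rw [Sum.inl.injEq] at this
      subst this
      exact Or.inl ⟨k, rfl, rfl⟩
  let G : L.Structure ℕ :=
    { funMap := fun f _ => isEmptyElim f
      RelMap := fun {k} R v => ∃ i, ∃ u : Fin k → ℕ, (∀ j, u j ∈ C i ∪ range (a i)) ∧
        (∀ j, em i (u j) = v j) ∧ (A i).RelMap R u }
  have hG : ∀ {k : ℕ} (R : L.Relations k) (v : Fin k → ℕ), G.RelMap R v ↔ ∃ i,
      ∃ u : Fin k → ℕ, (∀ j, u j ∈ C i ∪ range (a i)) ∧ (∀ j, em i (u j) = v j) ∧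
        (A i).RelMap R u := fun _ _ => Iff.rfl
  have hrel : ∀ i {k : ℕ} (R : L.Relations k) (u : Fin k → ℕ), (∀ j, u j ∈ C i ∪ range (a i)) →
      ((A i).RelMap R u ↔ G.RelMap R (fun j => em i (u j))) := by
    intro i k R u hu
    constructor
    · intro h
      exact ⟨i, u, hu, fun _ => rfl, h⟩
    · rintro ⟨j, u', hu', hem, h⟩
      by_cases hall : ∀ l, u l ∈ range (a i)
      · choose f hf using hall
        have hu'' : ∀ l, u' l = a j (f l) := by
          intro l
          rcases e3 j i _ _ (hu' l) (hu l) (hem l) with ⟨m, hm1, hm2⟩ | ⟨hji, h2, h3⟩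
          · rw [← hf l] at hm2
            rw [hm1, ha i hm2]
          · subst hji
            rw [h2, ← hf l]
        have h4 := (hat i j).2 k R (fun l => (a i (f l), a j (f l))) (fun l => ⟨f l, rfl⟩)
        have h5 : u' = fun l => a j (f l) := funext hu''
        have h6 : u = fun l => a i (f l) := funext fun l => (hf l).symm
        rw [h6]
        rw [h5] at h
        exact h4.mpr h
      · push Not at hall
        obtain ⟨l0, hl0⟩ := hall
        have hji : j = i := by
          rcases e3 j i _ _ (hu' l0) (hu l0) (hem l0) with ⟨m, hm1, hm2⟩ | ⟨hji, h2, h3⟩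
          · exact absurd ⟨m, hm2.symm⟩ hl0
          · exact hji
        subst hji
        have h5 : u' = u := by
          funext l
          rcases e3 j j _ _ (hu' l) (hu l) (hem l) with ⟨m, hm1, hm2⟩ | ⟨_, h2, h3⟩
          · rw [hm1, hm2]
          · exact h2
        rw [← h5]
        exact h
  let B : I → Set ℕ := fun i => em i '' C i
  have htinj : Function.Injective t := by
    intro k l hkl
    have := η.apply_eq_iff_eq.mp hkl
    rwa [Sum.inl.injEq] at this
  have hblocks : Blocks G (range t) B := by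
    refine ⟨fun x => ?_, fun i x hx => ?_, fun i j x hx hx' => ?_, fun k R v hv => ?_⟩
    · obtain ⟨w, rfl⟩ := η.surjective x
      rcases w with k | ⟨i, ⟨y, hy⟩⟩
      · exact Or.inl ⟨k, rfl⟩
      · exact Or.inr ⟨i, ⟨y, hy, e2 i y hy⟩⟩
    · obtain ⟨y, hy, rfl⟩ := hx
      rintro ⟨k, hk⟩
      rw [e2 i y hy] at hk
      have := η.apply_eq_iff_eq.mp hk
      exact absurd this (by simp)
    · obtain ⟨y, hy, rfl⟩ := hx
      obtain ⟨z, hz, hzy⟩ := hx'
      rcases e3 j i z y (Or.inl hz) (Or.inl hy) hzy with ⟨k, hk, _⟩ | ⟨hji, _⟩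
      · exact absurd ⟨k, hk.symm⟩ ((hC j).disjQ hz)
      · exact hji.symm
    · obtain ⟨i, u, hu, hem, _⟩ := (hG R v).mp hv
      refine Or.inl ⟨i, fun k => ?_⟩
      rw [← hem k]
      rcases hu k with h | ⟨l, hl⟩
      · exact Or.inl ⟨u k, h, rfl⟩
      · right
        rw [← hl, e1 i l]
        exact mem_range_self l
  refine ⟨G, t, B, htinj, hblocks, fun i => ?_, fun i g => ?_⟩
  · obtain ⟨x, hx⟩ := (hC i).nonempty
    have hxB : em i x ∈ B i := ⟨x, hx, rfl⟩
    refine ⟨em i x, hblocks.disjQ i _ hxB, Subset.antisymm ?_ ?_⟩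
    · rintro _ ⟨y, hy, rfl⟩
      have hconn : Conn (gaif (A i)) (range (a i)) x y := by
        have := (hC i).eq_cpt hx
        rw [this] at hy
        exact hy
      have key : ∀ z, Conn (gaif (A i)) (range (a i)) x z →
          Conn (gaif G) (range t) (em i x) (em i z) := by
        intro z hz
        induction hz with
        | refl => exact Conn.refl _
        | tail h1 h2 ih =>
          rename_i b c
          have hbC : b ∈ C i := by
            rw [(hC i).eq_cpt hx]
            exact h1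
          have hcC : c ∈ C i := by
            rw [(hC i).eq_cpt hx]
            exact Relation.ReflTransGen.tail h1 h2
          obtain ⟨⟨hne, k, R, v, hv, ⟨j, hj⟩, ⟨l, hl⟩⟩, _, _⟩ := h2
          have hvC : ∀ m, v m ∈ C i ∪ range (a i) := (hC i).rel hv (j := j) (by rw [hj]; exact hbC)
          refine Relation.ReflTransGen.tail ih ⟨⟨?_, k, R, fun m => em i (v m),
            (hrel i R v hvC).mp hv, ⟨j, by rw [← hj]⟩, ⟨l, by rw [← hl]⟩⟩,
            hblocks.disjQ i _ ⟨b, hbC, rfl⟩, hblocks.disjQ i _ ⟨c, hcC, rfl⟩⟩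
          intro heq
          rcases e3 i i _ _ (Or.inl hbC) (Or.inl hcC) heq with ⟨k, hk, _⟩ | ⟨_, h, _⟩
          · exact absurd ⟨k, hk.symm⟩ ((hC i).disjQ hbC)
          · exact hne h
      exact key y hconn
    · intro y hy
      exact hblocks.conn hxB hy
  · refine BFR.of_map (em i) ?_ ?_ (fun k R v hv => hrel i R v hv) g ?_
    · intro x hx y hy hxy
      rcases e3 i i _ _ hx hy hxy with ⟨k, hk1, hk2⟩ | ⟨_, h, _⟩
      · rw [hk1, hk2]
      · exact h
    · rw [image_union]
      congr 1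
      ext x
      constructor
      · rintro ⟨k, rfl⟩
        exact ⟨a i k, mem_range_self k, e1 i k⟩
      · rintro ⟨_, ⟨k, rfl⟩, rfl⟩
        exact ⟨k, (e1 i k).symm⟩
    · rintro _ ⟨k, rfl⟩
      exact ⟨Or.inr (mem_range_self k), (e1 i k).symm⟩

/-- Closure of a class of structures on the natural numbers under replacing infinitely many
components over a finite set by other pieces of the same class of level `d`. -/
theorem exists_replace [∀ n, IsEmpty (L.Functions n)] {K : Set (L.Structure ℕ)}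
    {d : Ordinal.{0}} (hcl : ClosedLev K d) {n : ℕ} {S : L.Structure ℕ} (hSK : S ∈ K)
    {s : Fin n → ℕ} (hs : Function.Injective s)
    [Infinite {C : Set ℕ // IsCpt (gaif S) (range s) C}]
    (A : {C : Set ℕ // IsCpt (gaif S) (range s) C} → L.Structure ℕ)
    (a : {C : Set ℕ // IsCpt (gaif S) (range s) C} → Fin n → ℕ)
    (C : {C : Set ℕ // IsCpt (gaif S) (range s) C} → Set ℕ)
    (hC : ∀ i, IsCpt (gaif (A i)) (range (a i)) (C i))
    (hPE : ∀ i, PE S s i.1 (A i) (a i) (C i) d) :
    ∃ (G : L.Structure ℕ) (t : Fin n → ℕ)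
      (B : {C : Set ℕ // IsCpt (gaif S) (range s) C} → Set ℕ), G ∈ K ∧ Function.Injective t ∧
      Blocks G (range t) B ∧ (∀ i, IsCpt (gaif G) (range t) (B i)) ∧
      ∀ i g, PE (A i) (a i) (C i) G t (B i) g := by
  have hct : Countable {C : Set ℕ // IsCpt (gaif S) (range s) C} := by
    refine Function.Surjective.countable
      (f := fun x : {x : ℕ // x ∉ range s} => (⟨cpt (gaif S) (range s) x.1, isCpt_cpt x.2⟩ :
        {C : Set ℕ // IsCpt (gaif S) (range s) C})) ?_
    rintro ⟨_, x, hx, rfl⟩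
    exact ⟨⟨x, hx⟩, rfl⟩
  have hat : ∀ i j, AtEq (A i) (A j) (range fun k => (a i k, a j k)) := by
    intro i j
    have h1 : PE (A i) (a i) (range (a i)) S s (range s) 0 := by
      have h2 := (hPE i).symm.mono (zero_le (a := d))
      unfold PE at h2 ⊢
      rw [BFR.def] at h2 ⊢
      exact ⟨h2.1, fun β hβ => absurd hβ (not_lt.mpr zero_le)⟩
    have h3 : PE S s (range s) (A j) (a j) (range (a j)) 0 := by
      have h2 := (hPE j).mono (zero_le (a := d))
      unfold PE at h2 ⊢
      rw [BFR.def] at h2 ⊢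
      exact ⟨h2.1, fun β hβ => absurd hβ (not_lt.mpr zero_le)⟩
    exact (h1.trans h3).atEq
  obtain ⟨G, t, B, ht, hB, hBc, hPEG⟩ := exists_glue A a C
    (fun i => (hPE i).injective hs) hC hat
  refine ⟨G, t, B, ?_, ht, hB, hBc, hPEG⟩
  apply hcl S hSK
  have hSG : ∀ i, PE S s i.1 G t (B i) d := fun i => (hPE i).trans (hPEG i d)
  obtain ⟨i0⟩ : Nonempty {C : Set ℕ // IsCpt (gaif S) (range s) C} := inferInstance
  have key := BFR.blocks (g := d) (blocks_cpt S (range s)) hB
    (pQ := range fun k => (s k, t k)) (hSG i0).atEq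
    (by rintro _ ⟨k, rfl⟩; exact ⟨mem_range_self k, mem_range_self k⟩)
    (by rintro _ ⟨k, rfl⟩; exact ⟨t k, ⟨k, rfl⟩⟩) (by rintro _ ⟨k, rfl⟩; exact ⟨s k, ⟨k, rfl⟩⟩)
    (p := fun _ => ∅) (fun i a ha => absurd ha (notMem_empty a)) (by
      intro i
      rw [union_empty]
      exact hSG i)
  exact BFR.anti (empty_subset _) key

/-- (6e) If infinitely many components over a finite tuple have the same class of level `d`, then
there are no infinitely many pairwise inequivalent pieces in that class. -/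
theorem star [∀ n, IsEmpty (L.Functions n)] {K : Set (L.Structure ℕ)} (hS : Scat K)
    {d : Ordinal.{0}} (hd : d < om1) (hcl : ClosedLev K d) {n : ℕ} {S : L.Structure ℕ}
    (hSK : S ∈ K) {s : Fin n → ℕ} (hs : Function.Injective s) (T : Set (Set ℕ)) (hT : T.Infinite)
    (hTc : ∀ C ∈ T, IsCpt (gaif S) (range s) C) (A : ℕ → L.Structure ℕ)
    (a : ℕ → Fin n → ℕ) (C : ℕ → Set ℕ) (hC : ∀ m, IsCpt (gaif (A m)) (range (a m)) (C m))
    (h1 : ∀ D ∈ T, ∀ m, PE S s D (A m) (a m) (C m) d) {g : Ordinal.{0}} (hg : g < om1)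
    (h2 : ∀ m m', m ≠ m' → ¬ PE (A m) (a m) (C m) (A m') (a m') (C m') g) : False := by
  classical
  let I : Type := {C : Set ℕ // IsCpt (gaif S) (range s) C}
  let T' : Set I := {D | PE S s D.1 (A 0) (a 0) (C 0) d}
  obtain ⟨D0, hD0⟩ := hT.nonempty
  have hT' : T'.Infinite := by
    have h3 : T ⊆ Subtype.val '' T' := by
      intro D hD
      exact ⟨⟨D, hTc D hD⟩, h1 D hD 0, rfl⟩
    exact fun hfin => hT ((hfin.image _).subset h3)
  have hT'PE : ∀ D ∈ T', ∀ m, PE S s D.1 (A m) (a m) (C m) d := by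
    intro D hD m
    exact hD.trans ((h1 D0 hD0 0).symm.trans (h1 D0 hD0 m))
  have hIinf : Infinite I := by
    have : Infinite T' := hT'.to_subtype
    exact Infinite.of_injective (Subtype.val : T' → I) Subtype.val_injective
  -- choice of surjections
  have hsurj : ∀ X : Set ℕ, X.Nonempty → ∃ f : I → ℕ, (∀ D, f D ∈ X) ∧ ∀ m ∈ X, ∃ D ∈ T', f D = m := by
    intro X hX
    obtain ⟨e⟩ : Nonempty (ℕ ↪ T') := ⟨@Infinite.natEmbedding T' hT'.to_subtype⟩
    obtain ⟨x0, hx0⟩ := hX
    refine ⟨fun D => if h : ∃ m ∈ X, (e m).1 = D then h.choose else x0, fun D => ?_,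
      fun m hm => ⟨(e m).1, (e m).2, ?_⟩⟩
    · by_cases h : ∃ m ∈ X, (e m).1 = D
      · simp only [dif_pos h]
        exact h.choose_spec.1
      · simp only [dif_neg h]
        exact hx0
    · have h : ∃ m' ∈ X, (e m').1 = (e m).1 := ⟨m, hm, rfl⟩
      simp only [dif_pos h]
      exact e.injective (Subtype.ext h.choose_spec.2)
  have hG : ∀ X : Set ℕ, X.Nonempty → ∃ (G : L.Structure ℕ) (t : Fin n → ℕ) (B : I → Set ℕ)
      (f : I → ℕ), G ∈ K ∧ (∀ D, f D ∈ X) ∧ (∀ m ∈ X, ∃ D ∈ T', f D = m) ∧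
      Function.Injective t ∧ Blocks G (range t) B ∧ (∀ i, IsCpt (gaif G) (range t) (B i)) ∧
      (∀ i ∉ T', ∀ g, PE S s i.1 G t (B i) g) ∧
      (∀ i ∈ T', ∀ g, PE (A (f i)) (a (f i)) (C (f i)) G t (B i) g) := by
    intro X hX
    obtain ⟨f, hf1, hf2⟩ := hsurj X hX
    obtain ⟨G, t, B, hGK, ht, hB, hBc, hPE⟩ := exists_replace hcl hSK hs
      (A := fun i : I => if i ∈ T' then A (f i) else S)
      (a := fun i : I => if i ∈ T' then a (f i) else s)
      (C := fun i : I => if i ∈ T' then C (f i) else i.1) (by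
        intro i
        by_cases hi : i ∈ T'
        · simp only [if_pos hi]
          exact hC (f i)
        · simp only [if_neg hi]
          exact i.2) (by
        intro i
        by_cases hi : i ∈ T'
        · simp only [if_pos hi]
          exact hT'PE i hi (f i)
        · simp only [if_neg hi]
          exact PE.refl _ _ _ _)
    refine ⟨G, t, B, f, hGK, hf1, hf2, ht, hB, hBc, fun i hi g => ?_, fun i hi g => ?_⟩
    · have := hPE i g
      simp only [if_neg hi] at this
      exact this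
    · have := hPE i g
      simp only [if_pos hi] at this
      exact this
  have hStr : Nonempty (L.Structure ℕ) := ⟨S⟩
  choose! G t B f hGK hf1 hf2 ht hB hBc hPE1 hPE2 using hG
  -- recovering `X`
  let γ := max g d
  have key : ∀ X Y : Set ℕ, X.Nonempty → Y.Nonempty →
      BFR (G X) (G Y) univ univ (Ordinal.omega0 + Ordinal.omega0 + γ + 1)
        (range fun k => (t X k, t Y k)) → X ⊆ Y := by
    intro X Y hX hY h m hm
    obtain ⟨D, hD, hDm⟩ := hf2 X hX m hm
    obtain ⟨x, hx⟩ := (hBc X hX D).nonempty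
    obtain ⟨x', -, hx'⟩ := h.forth (lt_add_one _) (mem_univ x)
    have hPQ : Pairs (range (t X)) (range (t Y))
        (insert (x, x') (range fun k => (t X k, t Y k))) := by
      refine ⟨?_, ?_⟩
      · rintro _ ⟨k, rfl⟩
        exact ⟨t Y k, mem_range_self k, mem_insert_of_mem _ ⟨k, rfl⟩⟩
      · rintro _ ⟨k, rfl⟩
        exact ⟨t X k, mem_range_self k, mem_insert_of_mem _ ⟨k, rfl⟩⟩
    have hxQ : x ∉ range (t X) := (hBc X hX D).disjQ hx
    have hx'Q : x' ∉ range (t Y) := fun h' =>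
      hxQ ((hPQ.mem_iff hx'.atEq (mem_insert _ _)).mpr h')
    obtain ⟨E, hE⟩ := ((hB Y hY).cover x').resolve_left hx'Q
    have h3 := BFR.restrict hx' (s := t X) (s' := t Y) (fun i => mem_insert_of_mem _ ⟨i, rfl⟩)
      (mem_insert _ _)
    rw [← (hBc X hX D).eq_cpt hx, ← (hBc Y hY E).eq_cpt hE] at h3
    have h4 : PE (G X) (t X) (B X D) (G Y) (t Y) (B Y E) γ := BFR.anti (subset_insert _ _) h3
    have h5 := (hPE2 X hX D hD γ).trans h4
    rw [hDm] at h5
    by_cases hET : E ∈ T'
    · have h6 := h5.trans (hPE2 Y hY E hET γ).symm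
      by_contra hne
      have hne' : m ≠ f Y E := fun heq => hne (heq ▸ hf1 Y hY E)
      exact h2 _ _ hne' (h6.mono (le_max_left g d))
    · exfalso
      have h6 := h5.trans (hPE1 Y hY E hET γ).symm
      apply hET
      have h7 : PE S s E.1 (A m) (a m) (C m) d := (h6.mono (le_max_right g d)).symm
      have h8 : PE (A m) (a m) (C m) (A 0) (a 0) (C 0) d :=
        (h1 D0 hD0 m).symm.trans (h1 D0 hD0 0)
      exact h7.trans h8
  have hγ : Ordinal.omega0 + Ordinal.omega0 + γ + 1 < (om1 : Ordinal.{0}) := by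
    have h3 : (Ordinal.omega0 : Ordinal.{0}) < om1 := Ordinal.omega0_lt_omega_one
    have h4 := Ordinal.isPrincipal_add_ord (Cardinal.aleph0_le_aleph 1)
    rw [Cardinal.ord_aleph] at h4
    have h5 : (1 : Ordinal.{0}) < om1 := by
      have h6 := (Ordinal.natCast_lt_omega0 1).trans h3
      simpa using h6
    exact h4 (h4 (h4 h3 h3) (max_lt hg hd)) h5
  obtain ⟨ρ, hρ⟩ := hS _ hγ n
  have hcol : ∀ X : Set ℕ, ∃ m, X.Nonempty →
      BFR (G X) (ρ m).1 univ univ (Ordinal.omega0 + Ordinal.omega0 + γ + 1) (pr (t X) (ρ m).2) := by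
    intro X
    by_cases hX : X.Nonempty
    · obtain ⟨m, -, hm⟩ := hρ (G X) (hGK X hX) (t X)
      exact ⟨m, fun _ => hm⟩
    · exact ⟨0, fun h => absurd h hX⟩
  choose col hcol using hcol
  have hinj : ∀ X Y : Set ℕ, X.Nonempty → Y.Nonempty → col X = col Y → X ⊆ Y := by
    intro X Y hX hY hXY
    apply key X Y hX hY
    have h3 := hcol X hX
    rw [hXY] at h3
    refine BFR.trans h3 ((hcol Y hY).symm (q := pr (ρ (col Y)).2 (t Y)) ?_) ?_
    · rintro _ ⟨k, rfl⟩
      exact ⟨k, rfl⟩
    · rintro _ ⟨k, rfl⟩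
      exact ⟨(ρ (col Y)).2 k, ⟨k, rfl⟩, ⟨k, rfl⟩⟩
  -- a contradiction by Cantor
  let X : Set ℕ → Set ℕ := fun Z => insert 0 (Nat.succ '' Z)
  have hXne : ∀ Z, (X Z).Nonempty := fun Z => ⟨0, mem_insert _ _⟩
  have hinj2 : Function.Injective fun Z : Set ℕ => col (X Z) := by
    intro Z Z' h
    have h3 : ∀ Z Z' : Set ℕ, X Z ⊆ X Z' → Z ⊆ Z' := by
      intro Z Z' hs x hx
      have : x.succ ∈ X Z' := hs (mem_insert_of_mem _ ⟨x, hx, rfl⟩)
      rcases this with h | ⟨y, hy, hyx⟩
      · exact absurd h (Nat.succ_ne_zero x)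
      · rwa [← Nat.succ_injective hyx]
    exact (h3 _ _ (hinj _ _ (hXne Z) (hXne Z') h)).antisymm
      (h3 _ _ (hinj _ _ (hXne Z') (hXne Z) h.symm))
  exact Function.cantor_injective _ hinj2

end Pool.Agent.Helper79.VC
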