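import Pool.Agent.Helper6.VC.WTame

/-!
# The closing off argument with finite boundaries or replicable components
-/

set_option autoImplicit false
set_option linter.unusedSectionVars false
set_option linter.unusedVariables false

namespace Pool.Agent.Helper6.VC

open Set Pool.Agent.Helper5.DU Pool.Agent.Helper6.Str Pool.Agent.Helper79.VC
  Pool.Agent.Helper97.VC

variable {L : FirstOrder.Language.{0, 0}} {M : Type}

/-- the boundary case of the closing off argument -/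
theorem real_of_bdry {S : L.Structure M} (hswap : SwapStatement S)
    (DD : Finset M → Set (Set M)) (hDDi : ∀ Q, ∀ D ∈ DD Q, IsCpt (gaif S) (Q : Set M) D)
    (hDDe : ∀ Q : Finset M, ∀ C, IsCpt (gaif S) (Q : Set M) C → C ∉ DD Q →
        {D ∈ DD Q | Tame S (Q : Set M) D ∧ ∀ γ < om1,
          BFR S S (C ∪ (Q : Set M)) (D ∪ (Q : Set M)) γ ((fun a => (a, a)) '' (Q : Set M))}.Infinite)
    {A : Set M} (hA1 : ∀ Q : Finset M, (Q : Set M) ⊆ A → ∀ D ∈ DD Q, ∃ x ∈ D, x ∈ A)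
    (hA2 : ∀ Q : Finset M, (Q : Set M) ⊆ A → ∀ x ∈ A, x ∉ Q →
      Tame S (Q : Set M) (cpt (gaif S) (Q : Set M) x) →
        ∃ B : Set M, B ⊆ A ∧ B ⊆ cpt (gaif S) (Q : Set M) x ∪ Q ∧ B.Countable ∧
          ∀ c ∈ cpt (gaif S) (Q : Set M) x ∪ Q, ∃ d ∈ B, ∀ γ < om1,
            BFR S S (cpt (gaif S) (Q : Set M) x ∪ Q) (cpt (gaif S) (Q : Set M) x ∪ Q) γ
              (insert (c, d) (dg (Q : Set M))))
    {F : Finset M} (hF : (F : Set M) ⊆ A) {c : M} (hcA : c ∉ A)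
    (hfin : (bdry (gaif S) A c).Finite) : ∃ d ∈ A, ∀ γ < om1,
    BFR S S univ univ γ (insert (c, d) ((fun a => (a, a)) '' (F : Set M))) := by
  classical
  set G := gaif S with hG
  set C := cpt G A c with hC
  have hCA : ∀ x ∈ C, x ∉ A := fun x hx => conn_notMem hcA hx
  obtain ⟨Q, hQN⟩ : ∃ Q : Finset M, (Q : Set M) = bdry G A c :=
    ⟨hfin.toFinset, hfin.coe_toFinset⟩
  have hQA : (Q : Set M) ⊆ A := by
    rw [hQN]
    exact fun a ha => ha.1
  obtain ⟨hCeq, hCis⟩ := isCpt_of_nbhd (G := G) hcA (Q := (Q : Set M)) (by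
    intro a
    rw [hQN]
    exact Iff.rfl)
  have hcQ : c ∉ (Q : Set M) := fun h => hcA (hQA h)
  have hcC : c ∈ C := Pool.Agent.Helper97.VC.mem_cpt_self A c
  have hCDD : C ∉ DD Q := by
    intro h
    obtain ⟨x, hx, hxA⟩ := hA1 Q hQA C h
    exact hCA x hx hxA
  have hinf := hDDe Q C hCis hCDD
  -- a component away from the finite set
  obtain ⟨D, ⟨hDD, hDT, hDE⟩, hDF⟩ : ∃ D, (D ∈ DD Q ∧ Tame S (Q : Set M) D ∧ ∀ γ < om1,
      BFR S S (C ∪ (Q : Set M)) (D ∪ (Q : Set M)) γ (dg (Q : Set M))) ∧ ∀ a ∈ F, a ∉ D := by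
    by_contra hcon
    push Not at hcon
    refine hinf ?_
    refine (F.finite_toSet.image (fun a => cpt G (Q : Set M) a)).subset ?_
    rintro D ⟨hD1, hD2, hD3⟩
    obtain ⟨a, haF, haD⟩ := hcon D ⟨hD1, hD2, hD3⟩
    exact ⟨a, haF, (isCpt_eq_cpt (hDDi Q D hD1) haD).symm⟩
  have hCD : C ≠ D := fun h => hCDD (h ▸ hDD)
  have hDis := hDDi Q D hDD
  obtain ⟨x, hxD, hxA⟩ := hA1 Q hQA D hDD
  have hDx : D = cpt G (Q : Set M) x := isCpt_eq_cpt hDis hxD
  have hxQ : x ∉ (Q : Set M) := isCpt_notMem hDis hxD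
  obtain ⟨B, hBA, hBD, hBc, hB⟩ := hA2 Q hQA x hxA (fun h => hxQ h) (hDx ▸ hDT)
  rw [← hDx] at hBD hB
  -- an element realising the type of `c`
  obtain ⟨d, hdB, hd⟩ := Pool.Agent.Helper97.VC.exists_uniform hBc
    (fun d γ => BFR S S (C ∪ (Q : Set M)) (D ∪ (Q : Set M)) γ (insert (c, d) (dg (Q : Set M))))
    (fun d β γ hβ h => h.mono hβ) (by
      intro γ hγ
      have h1 := hDE (γ + 1) (add_one_lt_om1 hγ)
      obtain ⟨d, hd, h2⟩ := h1.forth (Order.lt_add_one_iff.mpr le_rfl) (Or.inl hcC)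
      obtain ⟨d', hd', h3⟩ := hB d hd
      refine ⟨d', hd', BFR.trans h2 (h3 γ hγ) ?_⟩
      rintro a (rfl | ⟨q, hq, rfl⟩)
      · exact ⟨d, mem_insert _ _, mem_insert _ _⟩
      · exact ⟨q, mem_insert_of_mem _ ⟨q, hq, rfl⟩, mem_insert_of_mem _ ⟨q, hq, rfl⟩⟩)
  have hdD : d ∈ D := by
    rcases hBD hdB with h | h
    · exact h
    · exfalso
      have h0 := (hd 0 (Ordinal.omega_pos 1)).atEq
      have h1 := h0.1 (c, d) (mem_insert _ _) (d, d) (mem_insert_of_mem _ ⟨d, h, rfl⟩)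
      simp only [iff_true] at h1
      exact hcQ (h1 ▸ h)
  refine ⟨d, hBA hdB, fun γ hγ => ?_⟩
  have h4 := hswap (Q : Set M) C D (F : Set M) c d γ hCis hDis hCD hcC hdD (hd γ hγ)
    (fun a ha => ⟨fun h => hCA a h (hF ha), fun h => hDF a ha h⟩)
  refine BFR.anti ?_ h4
  exact insert_subset_insert (image_mono subset_union_left)

/-- **Closing off**, with the hypothesis of finite boundaries or tame components. -/
theorem false_of_main {S : L.Structure M} (hswap : SwapStatement S) (hNT : NoCtblType S)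
    (hD : ∀ Q : Finset M, ∃ DD : Set (Set M), DD.Countable ∧
      (∀ D ∈ DD, IsCpt (gaif S) (Q : Set M) D) ∧
      ∀ C, IsCpt (gaif S) (Q : Set M) C → C ∉ DD →
        {D ∈ DD | Tame S (Q : Set M) D ∧ ∀ γ < om1,
          BFR S S (C ∪ (Q : Set M)) (D ∪ (Q : Set M)) γ ((fun a => (a, a)) '' (Q : Set M))}.Infinite)
    {γ₀ : Ordinal.{0}} (hcc : ∀ F : Finset M, ∃ T : Set M, T.Countable ∧ ∀ c : M, ∃ c' ∈ T,
      BFR S S univ univ γ₀ (insert (c, c') ((fun a => (a, a)) '' (F : Set M))))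
    (hFB : ∀ A : Set M, A.Countable → ClosedAt S γ₀ A → ∀ c, c ∉ A →
      (bdry (gaif S) A c).Finite ∨ ∃ (n : ℕ) (s : Fin n → M), range s ⊆ A ∧
        WTame S s (cpt (gaif S) (range s) c)) : False := by
  classical
  set G := gaif S with hG
  choose DD hDDc hDDi hDDe using hD
  choose TT hTT1 hTT2 using hcc
  -- a countable set which is closed
  obtain ⟨A, hAc, hAcl, hA1, hA2, hA3⟩ : ∃ A : Set M, A.Countable ∧ ClosedAt S γ₀ A ∧
      (∀ Q : Finset M, (Q : Set M) ⊆ A → ∀ D ∈ DD Q, ∃ x ∈ D, x ∈ A) ∧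
      (∀ Q : Finset M, (Q : Set M) ⊆ A → ∀ x ∈ A, x ∉ Q → Tame S (Q : Set M) (cpt G (Q : Set M) x) →
        ∃ B : Set M, B ⊆ A ∧ B ⊆ cpt G (Q : Set M) x ∪ Q ∧ B.Countable ∧
          ∀ c ∈ cpt G (Q : Set M) x ∪ Q, ∃ d ∈ B, ∀ γ < om1,
            BFR S S (cpt G (Q : Set M) x ∪ Q) (cpt G (Q : Set M) x ∪ Q) γ
              (insert (c, d) (dg (Q : Set M)))) ∧
      (∀ Q : Finset M, (Q : Set M) ⊆ A → ∀ x ∈ A,
        (∃ (n : ℕ) (s : Fin n → M), range s = (Q : Set M) ∧ WTame S s (cpt G (Q : Set M) x)) →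
        ∀ F : Finset M, (F : Set M) ⊆ A → (F : Set M) ⊆ cpt G (Q : Set M) x ∪ Q →
          ∀ c ∈ cpt G (Q : Set M) x ∪ Q, ∃ d ∈ A, d ∈ cpt G (Q : Set M) x ∪ Q ∧ ∀ γ < om1,
            BFR S S (cpt G (Q : Set M) x ∪ Q) (cpt G (Q : Set M) x ∪ Q) γ
              (insert (c, d) (dg ((F : Set M) ∪ Q)))) := by
    let f1 : Finset M → Set M := fun Q =>
      ⋃ D ∈ DD Q, (if h : D.Nonempty then {h.some} else ∅)
    have hTB : ∀ (Q : Finset M) (x : M), ∃ B : Set M, B.Countable ∧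
        (Tame S (Q : Set M) (cpt G (Q : Set M) x) → B ⊆ cpt G (Q : Set M) x ∪ Q ∧
          ∀ c ∈ cpt G (Q : Set M) x ∪ Q, ∃ d ∈ B, ∀ γ < om1,
            BFR S S (cpt G (Q : Set M) x ∪ Q) (cpt G (Q : Set M) x ∪ Q) γ
              (insert (c, d) (dg (Q : Set M)))) := by
      intro Q x
      by_cases h : Tame S (Q : Set M) (cpt G (Q : Set M) x)
      · obtain ⟨B, h1, h2, h3⟩ := h
        exact ⟨B, h2, fun _ => ⟨h1, h3⟩⟩
      · exact ⟨∅, countable_empty, fun h' => absurd h' h⟩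
    choose TB hTB1 hTB2 using hTB
    have hTW : ∀ (Q : Finset M) (x : M) (F : Finset M), ∃ B : Set M, B.Countable ∧
        ((∃ (n : ℕ) (s : Fin n → M), range s = (Q : Set M) ∧ WTame S s (cpt G (Q : Set M) x)) →
          (F : Set M) ⊆ cpt G (Q : Set M) x ∪ Q →
          ∀ c ∈ cpt G (Q : Set M) x ∪ Q, ∃ d ∈ B, d ∈ cpt G (Q : Set M) x ∪ Q ∧ ∀ γ < om1,
            BFR S S (cpt G (Q : Set M) x ∪ Q) (cpt G (Q : Set M) x ∪ Q) γ
              (insert (c, d) (dg ((F : Set M) ∪ Q)))) := by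
      intro Q x F
      by_cases h : ∃ (n : ℕ) (s : Fin n → M), range s = (Q : Set M) ∧
          WTame S s (cpt G (Q : Set M) x)
      · by_cases hF : (F : Set M) ⊆ cpt G (Q : Set M) x ∪ Q
        · obtain ⟨n, s, hs, hw⟩ := h
          obtain ⟨B, hB1, hB2, hB3⟩ := hw.cover F (by rw [hs]; exact hF)
          rw [hs] at hB1 hB3
          refine ⟨B, hB2, fun _ _ c hc => ?_⟩
          obtain ⟨d, hd, h3⟩ := hB3 c hc
          exact ⟨d, hd, hB1 hd, h3⟩
        · exact ⟨∅, countable_empty, fun _ h' => absurd h' hF⟩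
      · exact ⟨∅, countable_empty, fun h' => absurd h' h⟩
    choose TW hTW1 hTW2 using hTW
    let f2 : Finset M → Set M := fun F => ⋃ x ∈ F, TB (F.erase x) x
    let f4 : Finset M → Set M := fun H => ⋃ Q ∈ (H.powerset : Set (Finset M)), ⋃ x ∈ (H : Set M),
      ⋃ F ∈ (H.powerset : Set (Finset M)), TW Q x F
    have hc1 : ∀ Q, (f1 Q).Countable := by
      intro Q
      refine (hDDc Q).biUnion fun D hD => ?_
      split_ifs with h
      · exact countable_singleton _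
      · exact countable_empty
    have hc2 : ∀ F, (f2 F).Countable := fun F =>
      (F.finite_toSet.countable).biUnion fun x _ => hTB1 _ _
    have hc4 : ∀ F, (f4 F).Countable := fun H =>
      ((Finset.finite_toSet _).countable).biUnion fun Q _ =>
        ((Finset.finite_toSet _).countable).biUnion fun x _ =>
          ((Finset.finite_toSet _).countable).biUnion fun F _ => hTW1 _ _ _
    obtain ⟨A, hAc, hA⟩ := exists_closed (fun F => (f1 F ∪ f2 F ∪ TT F) ∪ f4 F)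
      (fun F => (((hc1 F).union (hc2 F)).union (hTT1 F)).union (hc4 F))
    refine ⟨A, hAc, fun F hF c => ?_, fun Q hQ D hD => ?_, fun Q hQ x hx hxQ hT => ?_,
      fun Q hQ x hx hT F hF hFD c hc => ?_⟩
    · obtain ⟨c', hc', h⟩ := hTT2 F c
      exact ⟨c', hA F hF (Or.inl (Or.inr hc')), h⟩
    · have hne : D.Nonempty := isCpt_nonempty (hDDi Q D hD)
      refine ⟨hne.some, hne.some_mem, hA Q hQ (Or.inl (Or.inl (Or.inl ?_)))⟩
      simp only [f1, mem_iUnion]
      exact ⟨D, hD, by rw [dif_pos hne]; exact rfl⟩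
    · have hF : ((insert x Q : Finset M) : Set M) ⊆ A := by
        rw [Finset.coe_insert, insert_subset_iff]
        exact ⟨hx, hQ⟩
      have he : (insert x Q).erase x = Q := Finset.erase_insert hxQ
      have hsub : TB Q x ⊆ A := by
        intro y hy
        refine hA _ hF (Or.inl (Or.inl (Or.inr ?_)))
        simp only [f2, mem_iUnion]
        refine ⟨x, Finset.mem_insert_self _ _, ?_⟩
        rw [he]
        exact hy
      exact ⟨TB Q x, hsub, (hTB2 Q x hT).1, hTB1 Q x, (hTB2 Q x hT).2⟩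
    · obtain ⟨d, hd, hdD, h⟩ := hTW2 Q x F hT hFD c hc
      refine ⟨d, ?_, hdD, h⟩
      have hH : ((insert x (Q ∪ F) : Finset M) : Set M) ⊆ A := by
        rw [Finset.coe_insert, Finset.coe_union, insert_subset_iff]
        exact ⟨hx, union_subset hQ hF⟩
      refine hA _ hH (Or.inr ?_)
      simp only [f4, mem_iUnion]
      refine ⟨Q, ?_, x, ?_, F, ?_, hd⟩
      · rw [Finset.mem_coe, Finset.mem_powerset]
        exact fun y hy => Finset.mem_insert_of_mem (Finset.mem_union_left _ hy)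
      · exact Finset.mem_insert_self _ _
      · rw [Finset.mem_coe, Finset.mem_powerset]
        exact fun y hy => Finset.mem_insert_of_mem (Finset.mem_union_right _ hy)
  refine hNT ⟨A, hAc, fun F hF c => ?_⟩
  by_cases hcA : c ∈ A
  · refine ⟨c, hcA, fun γ _ => BFR.refl S univ γ ?_⟩
    rintro a (rfl | ⟨x, _, rfl⟩)
    · exact ⟨mem_univ _, rfl⟩
    · exact ⟨mem_univ _, rfl⟩
  have hbdry := real_of_bdry hswap DD hDDi hDDe hA1 hA2 hF hcA
  rcases hFB A hAc hAcl c hcA with hfin | ⟨n, s, hsA, hw⟩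
  · exact hbdry hfin
  by_cases hfin : (bdry G A c).Finite
  · exact hbdry hfin
  -- the component meets `A`
  obtain ⟨Q, hQs⟩ : ∃ Q : Finset M, (Q : Set M) = range s :=
    ⟨(finite_range s).toFinset, (finite_range s).coe_toFinset⟩
  rw [← hQs] at hsA hw
  obtain ⟨x, hxA, hxD⟩ : ∃ x ∈ A, x ∈ cpt G (Q : Set M) c := by
    by_contra hcon
    push Not at hcon
    refine hfin (Q.finite_toSet.subset ?_)
    rintro a ⟨haA, x, hx, hax⟩
    by_contra haQ
    refine hcon a haA ?_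
    have h1 : Conn G (Q : Set M) c x := conn_mono hsA hx
    exact Relation.ReflTransGen.tail h1 ⟨hax.symm, fun h => conn_notMem hcA hx (hsA h), haQ⟩
  have hDx : cpt G (Q : Set M) x = cpt G (Q : Set M) c := Pool.Agent.Helper97.VC.cpt_eq hxD
  have hcQ : c ∉ (Q : Set M) := fun h => hcA (hsA h)
  have hDis : IsCpt G (Q : Set M) (cpt G (Q : Set M) c) := ⟨c, hcQ, rfl⟩
  have hcD : c ∈ cpt G (Q : Set M) c := Pool.Agent.Helper97.VC.mem_cpt_self _ c
  obtain ⟨d, hdA, hdD, hd⟩ := hA3 Q hsA x hxA ⟨n, s, hQs.symm, by rw [hDx]; exact hw⟩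
    (F.filter (· ∈ cpt G (Q : Set M) c))
    (fun y hy => hF (Finset.mem_filter.mp (Finset.mem_coe.mp hy)).1)
    (fun y hy => Or.inl (by rw [hDx]; exact (Finset.mem_filter.mp (Finset.mem_coe.mp hy)).2)) c
    (Or.inl (by rw [hDx]; exact hcD))
  rw [hDx] at hdD hd
  have hdD' : d ∈ cpt G (Q : Set M) c := by
    rcases hdD with h | h
    · exact h
    · exfalso
      have h0 := (hd 0 (Ordinal.omega_pos 1)).atEq
      have h1 := h0.1 (c, d) (mem_insert _ _) (d, d) (mem_insert_of_mem _ ⟨d, Or.inr h, rfl⟩)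
      simp only [iff_true] at h1
      exact hcQ (h1 ▸ h)
  refine ⟨d, hdA, fun γ hγ => ?_⟩
  refine BFR.anti ?_ (extend_cpt (F := (F : Set M)) hDis hcD hdD' (g := γ) (BFR.anti ?_ (hd γ hγ)))
  · exact insert_subset_insert (image_mono subset_union_left)
  · rintro _ (rfl | ⟨y, (⟨hy1, hy2⟩ | hy), rfl⟩)
    · exact mem_insert _ _
    · refine mem_insert_of_mem _ ⟨y, Or.inl ?_, rfl⟩
      rw [Finset.mem_coe, Finset.mem_filter]
      exact ⟨hy1, hy2⟩
    · exact mem_insert_of_mem _ ⟨y, Or.inr hy, rfl⟩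

end Pool.Agent.Helper6.VC
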