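import Pool.Agent.Helper6.VC.UClose
import Pool.Agent.Helper6.VC.FB

/-!
# Reflection for finite boundaries or replicable components
-/

set_option autoImplicit false
set_option linter.unusedSectionVars false
set_option linter.unusedVariables false

namespace Pool.Agent.Helper6.VC

open Set Pool.Agent.Helper5 Pool.Agent.Helper5.DU Pool.Agent.Helper6.Str Pool.Agent.Helper79.VC
  Pool.Agent.Helper97.VC

variable {L : FirstOrder.Language.{0, 0}} {M : Type}

/-- the component of `c` over a finite subset of `A` is equivalent at level `d` to infinitely many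
components in a member of `K` -/
def RepLev (K : Set (L.Structure ℕ)) (d : Ordinal.{0}) (S : L.Structure M) (A : Set M) (c : M) :
    Prop :=
  ∃ (n : ℕ) (s : Fin n → M) (S' : L.Structure ℕ) (s' : Fin n → ℕ) (T : Set (Set ℕ)),
    Function.Injective s ∧ range s ⊆ A ∧ S' ∈ K ∧ T.Infinite ∧
    (∀ D ∈ T, IsCpt (gaif S') (range s') D) ∧
    ∀ D ∈ T, PE S s (cpt (gaif S) (range s) c) S' s' D d

/-- every component outside a set closed at level `γ` has a finite boundary or is replicable -/
def FinOrRep (K : Set (L.Structure ℕ)) (d : Ordinal.{0}) (S : L.Structure M) (γ : Ordinal.{0}) :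
    Prop :=
  ∀ A : Set M, A.Countable → ClosedAt S γ A → ∀ c, c ∉ A →
    (bdry (gaif S) A c).Finite ∨ RepLev K d S A c

variable [∀ n, IsEmpty (L.Functions n)] [∀ n, Countable (L.Relations n)]

theorem finOrRep_reflect {K : Set (L.Structure ℕ)} (hS : Scat K) {d : Ordinal.{0}} (hd : d < om1)
    (hcl : ClosedLev K d) {γ : Ordinal.{0}} (hγ : γ < om1) (hFB : ∀ S' ∈ K, FinOrRep K d S' γ)
    {M : Type} {S : L.Structure M} (hlev : Lev K S) : FinOrRep K d S γ := by
  classical
  intro A hAc hAcl c hcA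
  set δ := max (max d γ) (Ordinal.omega0 + Ordinal.omega0 + d) with hδ
  have hδ1 : δ < om1 := max_lt (max_lt hd hγ)
    (add_lt_om1 (add_lt_om1 omega_lt_om1 omega_lt_om1) hd)
  have hdδ : d ≤ δ := (le_max_left _ _).trans (le_max_left _ _)
  have hγδ : γ ≤ δ := (le_max_right _ _).trans (le_max_left _ _)
  -- witnesses
  have hwit : ∀ x y : M, ∃ W : Set M, W.Countable ∧
      ((gaif S).Adj x y → ∃ (n : ℕ) (R : L.Relations n) (v : Fin n → M),
        S.RelMap R v ∧ x ∈ range v ∧ y ∈ range v ∧ range v ⊆ W) := exists_witness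
  choose W hWc hW using hwit
  have hpath : ∀ x y : M, ∃ P : Set M, P.Countable ∧ (Conn (gaif S) A x y →
      Conn (gaif S) (A ∪ Pᶜ) x y) := by
    intro x y
    by_cases h : Conn (gaif S) A x y
    · obtain ⟨P, hP, -, -, hc⟩ := exists_finite_conn h
      exact ⟨P, hP.countable, fun _ => hc⟩
    · exact ⟨∅, countable_empty, fun h' => absurd h' h⟩
  choose P hPc hP using hpath
  have hX : ∀ a : M, ∃ x : M, a ∈ bdry (gaif S) A c → x ∈ cpt (gaif S) A c ∧ (gaif S).Adj a x := by
    intro a
    by_cases h : a ∈ bdry (gaif S) A c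
    · obtain ⟨x, hx, hax⟩ := h.2
      exact ⟨x, fun _ => ⟨hx, hax⟩⟩
    · exact ⟨a, fun h' => absurd h' h⟩
  choose X hX using hX
  have hT : ∀ F : Finset M, ∃ T : Set M, T.Countable ∧ ∀ c : M, ∃ c' ∈ T,
      BFR S S univ univ δ (insert (c, c') ((fun a => (a, a)) '' (F : Set M))) :=
    fun F => exists_reps hS hδ1 hlev F
  choose T hT1 hT2 using hT
  let B₀ : Set M := insert c (A ∪ X '' A)
  have hB₀ : B₀.Countable := (hAc.union (hAc.image X)).insert c
  obtain ⟨B, hBc, hB⟩ := exists_closed
    (fun F => (B₀ ∪ T F) ∪ ⋃ x ∈ F, ⋃ y ∈ F, (W x y ∪ P x y))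
    (fun F => (hB₀.union (hT1 F)).union ((F.finite_toSet.countable).biUnion fun x _ =>
        (F.finite_toSet.countable).biUnion fun y _ => (hWc _ _).union (hPc _ _)))
  have hBB₀ : B₀ ⊆ B := fun x hx => hB ∅ (by simp) (Or.inl (Or.inl hx))
  have hBW : ∀ x ∈ B, ∀ y ∈ B, W x y ∪ P x y ⊆ B := by
    intro x hx y hy z hz
    refine hB (insert x (insert y ∅)) ?_ (Or.inr ?_)
    · rw [Finset.coe_insert, Finset.coe_insert, insert_subset_iff, insert_subset_iff]
      exact ⟨hx, hy, by simp⟩
    · simp only [mem_iUnion]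
      exact ⟨x, by simp, y, by simp, hz⟩
  have hBδ : ∀ F : Finset M, (F : Set M) ⊆ B → ∀ c : M, ∃ c' ∈ B,
      BFR S S univ univ δ (insert (c, c') ((fun a => (a, a)) '' (F : Set M))) := by
    intro F hF c
    obtain ⟨c', hc', h⟩ := hT2 F c
    exact ⟨c', hB F hF (Or.inl (Or.inr hc')), h⟩
  have hcB : c ∈ B := hBB₀ (mem_insert _ _)
  have hAB : A ⊆ B := fun a ha => hBB₀ (mem_insert_of_mem _ (Or.inl ha))
  have hinf := infinite_of_lev hlev
  obtain ⟨f, hf, hfB⟩ := exists_enum hBc (fun F hF c => by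
    obtain ⟨c', hc', h⟩ := hBδ F hF c
    exact ⟨c', hc', h.mono bot_le⟩)
  -- the countable structure belongs to `K`
  have hSB : BFR S (pl S f) univ univ d ∅ := by
    have h4 : BFR S S univ B d ∅ := closed_rel hBδ d hdδ ∅ finite_empty
      (fun a ha => absurd ha (notMem_empty a))
      (BFR.refl S univ d fun a ha => absurd ha (notMem_empty a))
    rw [← hfB] at h4
    exact BFR_pl' hf h4 fun a ha => absurd ha (notMem_empty a)
  obtain ⟨S1, hS1, h5⟩ := hlev d hd
  have hK : pl S f ∈ K := hcl S1 hS1 _ (by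
    refine BFR.trans (h5.symm (q := ∅) fun a ha => absurd ha (notMem_empty a)) hSB ?_
    exact fun a ha => absurd ha (notMem_empty a))
  -- adjacency is the same
  have hadj : ∀ x y, (gaif S).Adj (f x) (f y) → (gaif (pl S f)).Adj x y := by
    intro x y hxy
    have hx : f x ∈ B := hfB ▸ mem_range_self x
    have hy : f y ∈ B := hfB ▸ mem_range_self y
    obtain ⟨n, R, v, hv, hxv, hyv, hvW⟩ := hW _ _ hxy
    have hvr : ∀ i, ∃ k, f k = v i := by
      intro i
      have : v i ∈ B := hBW _ hx _ hy (Or.inl (hvW (mem_range_self i)))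
      rw [← hfB] at this
      exact this
    choose k hk using hvr
    refine ⟨fun h => hxy.ne (congrArg f h), n, R, k, ?_, ?_, ?_⟩
    · show S.RelMap R (fun i => f (k i))
      have : (fun i => f (k i)) = v := funext hk
      rw [this]
      exact hv
    · obtain ⟨i, hi⟩ := hxv
      exact ⟨i, hf ((hk i).trans hi)⟩
    · obtain ⟨i, hi⟩ := hyv
      exact ⟨i, hf ((hk i).trans hi)⟩
  -- closedness of the pulled back set
  have hcl' : ClosedAt (pl S f) γ (f ⁻¹' A) := by
    intro F hF c'
    obtain ⟨e, he, h6⟩ := hAcl (F.image f) (by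
      rw [Finset.coe_image]
      rintro _ ⟨a, ha, rfl⟩
      exact hF ha) (f c')
    obtain ⟨e', rfl⟩ : ∃ e', f e' = e := by
      have := hAB he
      rw [← hfB] at this
      exact this
    refine ⟨e', he, ?_⟩
    have hsub : ∀ p : Set (M × M), p.Finite → (∀ a ∈ p, a.2 ∈ B) → BFR S S univ univ γ p →
        BFR S S univ (range f) γ p := by
      intro p hp hpB h
      rw [hfB]
      exact closed_rel hBδ γ hγδ p hp hpB h
    have hfr : ∀ n, f n ∈ B := fun n => hfB ▸ mem_range_self n
    -- first: `S` and the pulled back structure, identity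
    have h7 : BFR S (pl S f) univ univ γ (insert (f c', c') ((fun a => (f a, a)) '' (F : Set ℕ))) := by
      have h8 : BFR S S univ (range f) γ
          (insert (f c', f c') ((fun a => (f a, f a)) '' (F : Set ℕ))) := by
        refine hsub _ ((F.finite_toSet.image _).insert _) ?_ ?_
        · rintro a (rfl | ⟨x, _, rfl⟩)
          · exact hfr _
          · exact hfr _
        · refine BFR.refl S univ γ ?_
          rintro a (rfl | ⟨x, _, rfl⟩)
          · exact ⟨mem_univ _, rfl⟩
          · exact ⟨mem_univ _, rfl⟩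
      refine BFR_pl' hf h8 ?_
      rintro a (rfl | ⟨x, hx, rfl⟩)
      · exact mem_insert _ _
      · exact mem_insert_of_mem _ ⟨x, hx, rfl⟩
    have h9 : BFR S (pl S f) univ univ γ (insert (f c', e') ((fun a => (f a, a)) '' (F : Set ℕ))) := by
      have h10 : BFR S S univ (range f) γ
          (insert (f c', f e') ((fun a => (a, a)) '' ((F.image f : Finset M) : Set M))) := by
        refine hsub _ (((F.image f).finite_toSet.image _).insert _) ?_ h6
        rintro a (rfl | ⟨x, hx, rfl⟩)
        · exact hfr _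
        · rw [Finset.coe_image] at hx
          obtain ⟨y, _, rfl⟩ := hx
          exact hfr _
      refine BFR_pl' hf h10 ?_
      rintro a (rfl | ⟨x, hx, rfl⟩)
      · exact mem_insert _ _
      · refine mem_insert_of_mem _ ⟨f x, ?_, rfl⟩
        rw [Finset.coe_image]
        exact mem_image_of_mem f hx
    have h11 : BFR (pl S f) S univ univ γ (insert (c', f c') ((fun a => (a, f a)) '' (F : Set ℕ))) := by
      refine h7.symm ?_
      rintro a (rfl | ⟨x, hx, rfl⟩)
      · exact mem_insert _ _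
      · exact mem_insert_of_mem _ ⟨x, hx, rfl⟩
    refine BFR.trans h11 h9 ?_
    rintro a (rfl | ⟨x, hx, rfl⟩)
    · exact ⟨f c', mem_insert _ _, mem_insert _ _⟩
    · exact ⟨f x, mem_insert_of_mem _ ⟨x, hx, rfl⟩, mem_insert_of_mem _ ⟨x, hx, rfl⟩⟩
  obtain ⟨c', rfl⟩ : ∃ c', f c' = c := by
    rw [← hfB] at hcB
    exact hcB
  rcases hFB _ hK (f ⁻¹' A) (to_countable _) hcl' c' hcA with hfin | hrep
  swap
  · obtain ⟨n, s, S', s', T, hs, hsA, hS', hTi, hTc, hTd⟩ := hrep
    right
    refine ⟨n, fun i => f (s i), S', s', T, fun i j hij => hs (hf hij), ?_, hS', hTi, hTc, ?_⟩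
    · rintro _ ⟨i, rfl⟩
      exact hsA (mem_range_self i)
    · have hfr : ∀ n, f n ∈ B := fun n => hfB ▸ mem_range_self n
      have h8 : BFR S S univ (range f) (Ordinal.omega0 + Ordinal.omega0 + d)
          (insert (f c', f c') (range fun i => (f (s i), f (s i)))) := by
        rw [hfB]
        refine closed_rel hBδ _ (le_max_right _ _) _ ((finite_range _).insert _) ?_
          (BFR.refl S univ _ ?_)
        · rintro a (rfl | ⟨i, rfl⟩)
          · exact hfr _
          · exact hfr _
        · rintro a (rfl | ⟨i, rfl⟩)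
          · exact ⟨mem_univ _, rfl⟩
          · exact ⟨mem_univ _, rfl⟩
      have h9 : BFR S (pl S f) univ univ (Ordinal.omega0 + Ordinal.omega0 + d)
          (insert (f c', c') (range fun i => (f (s i), s i))) := by
        refine BFR_pl' hf h8 ?_
        rintro a (rfl | ⟨i, rfl⟩)
        · exact mem_insert _ _
        · exact mem_insert_of_mem _ ⟨i, rfl⟩
      have h10 : PE S (fun i => f (s i)) (cpt (gaif S) (range fun i => f (s i)) (f c')) (pl S f) s
          (cpt (gaif (pl S f)) (range s) c') d := by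
        refine BFR.anti ?_ (BFR.restrict (s := fun i => f (s i)) (s' := s) h9
          (fun i => mem_insert_of_mem _ ⟨i, rfl⟩) (mem_insert _ _))
        exact subset_insert _ _
      exact fun D hD => h10.trans (hTd D hD)
  left
  -- the boundary is infinite
  refine (hfin.image f).subset ?_
  intro a ha
  have haB : a ∈ B := hAB ha.1
  obtain ⟨a', rfl⟩ : ∃ a', f a' = a := by
    rw [← hfB] at haB
    exact haB
  refine ⟨a', ⟨ha.1, ?_⟩, rfl⟩
  obtain ⟨hx1, hx2⟩ := hX _ ha
  have hxB : X (f a') ∈ B := hBB₀ (mem_insert_of_mem _ (Or.inr ⟨_, ha.1, rfl⟩))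
  obtain ⟨x', hx'⟩ : ∃ x', f x' = X (f a') := by
    rw [← hfB] at hxB
    exact hxB
  rw [← hx'] at hx1 hx2
  refine ⟨x', ?_, hadj _ _ hx2⟩
  have h12 : Conn (gaif S) (A ∪ (P (f c') (f x'))ᶜ) (f c') (f x') := hP _ _ hx1
  have h13 : Conn (gaif S) (A ∪ (range f)ᶜ) (f c') (f x') := by
    refine conn_mono ?_ h12
    rintro z (hz | hz)
    · exact Or.inl hz
    · refine Or.inr fun h => hz ?_
      rw [hfB]
      exact hBW _ (hfB ▸ mem_range_self c') _ (hfB ▸ mem_range_self x') (Or.inr h)
  exact conn_pl hf hadj h13 x' rfl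


/-- **The main theorem** for classes with finite boundaries or replicable components. -/
theorem main_finOrRep (K : Set (L.Structure ℕ)) (hK : MeasurableSet {c : Code L | toStr c ∈ K})
    (d : Ordinal.{0}) (hd : d < om1) (hcl : ClosedLev K d) (γ : Ordinal.{0}) (hγ : γ < om1)
    (hFB : ∀ S ∈ K, FinOrRep K d S γ) (hP : ¬ PerfK K) : CtblK K := by
  by_contra hC
  have hS := scat_of_not_perf hK hP
  obtain ⟨M, S, hlev, hNT⟩ := exists_model hK hS hd hcl hC
  refine false_of_main
    (fun Q C D F c d g h1 h2 h3 h4 h5 h6 h7 => swap_cpt h1 h2 h3 h4 h5 h6 F h7) hNT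
    (dich hS hd hcl hlev) (fun F => exists_reps hS hγ hlev F) (fun A hAc hA c hc => ?_)
  rcases finOrRep_reflect hS hd hcl hγ hFB hlev A hAc hA c hc with h | h
  · exact Or.inl h
  · obtain ⟨n, s, S', s', T, hs, hsA, hS', hTi, hTc, hTd⟩ := h
    exact Or.inr ⟨n, s, hsA, wtame_of_infinite hS hd hcl hlev hs (fun h => hc (hsA h)) hS' T hTi
      hTc hTd⟩

end Pool.Agent.Helper6.VC
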