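import Pool.Agent.Helper97.VC.Boundary
import Pool.Agent.Helper79.VC.Dich

/-!
# Pieces which are equivalent to a piece on the natural numbers at all countable levels
-/

set_option autoImplicit false
set_option linter.unusedSectionVars false
set_option linter.unusedVariables false

namespace Pool.Agent.Helper6.VC

open Set Pool.Agent.Helper5.DU Pool.Agent.Helper6.Str Pool.Agent.Helper79.VC
  Pool.Agent.Helper97.VC

variable {L : FirstOrder.Language.{0, 0}} {M : Type}

/-- the piece `(S, s, D)` is equivalent to a piece on the natural numbers at all countable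
levels -/
def WTame (S : L.Structure M) {n : ℕ} (s : Fin n → M) (D : Set M) : Prop :=
  ∃ (A : L.Structure ℕ) (a : Fin n → ℕ) (C : Set ℕ), ∀ g < om1, PE S s D A a C g

/-- one element of a countable type works for all countable levels -/
theorem exists_uniform_ctbl {ι : Type} [Countable ι] {P : ι → Ordinal.{0} → Prop}
    (hmono : ∀ y β γ, β ≤ γ → P y γ → P y β) (h : ∀ γ < om1, ∃ y, P y γ) :
    ∃ y, ∀ γ < om1, P y γ := by
  by_contra hcon
  push Not at hcon
  choose g hg hg' using hcon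
  obtain ⟨γ, hγ, hle⟩ := exists_bound hg
  obtain ⟨y, hy⟩ := h γ hγ
  exact hg' y (hmono y _ _ (hle y) hy)

theorem range_append {α : Type} {m n : ℕ} (s : Fin m → α) (u : Fin n → α) :
    range (Fin.append s u) = range s ∪ range u := by
  ext x
  constructor
  · rintro ⟨i, rfl⟩
    refine Fin.addCases (fun j => ?_) (fun j => ?_) i
    · rw [Fin.append_left]
      exact Or.inl ⟨j, rfl⟩
    · rw [Fin.append_right]
      exact Or.inr ⟨j, rfl⟩
  · rintro (⟨j, rfl⟩ | ⟨j, rfl⟩)
    · exact ⟨Fin.castAdd n j, Fin.append_left _ _ _⟩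
    · exact ⟨Fin.natAdd m j, Fin.append_right _ _ _⟩

/-- countably many elements realise all the types over a finite subset of the piece -/
theorem WTame.cover {S : L.Structure M} {n : ℕ} {s : Fin n → M} {D : Set M} (h : WTame S s D)
    (F : Finset M) (hF : (F : Set M) ⊆ D ∪ range s) :
    ∃ B : Set M, B ⊆ D ∪ range s ∧ B.Countable ∧ ∀ c ∈ D ∪ range s, ∃ d ∈ B, ∀ g < om1,
      BFR S S (D ∪ range s) (D ∪ range s) g (insert (c, d) (dg ((F : Set M) ∪ range s))) := by
  classical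
  obtain ⟨A, a, C, hAC⟩ := h
  let u : Fin F.card → M := fun i => (F.equivFin.symm i).1
  have hu : range u = (F : Set M) := by
    ext c
    constructor
    · rintro ⟨i, rfl⟩
      exact (F.equivFin.symm i).2
    · intro hc
      exact ⟨F.equivFin ⟨c, hc⟩, by simp [u]⟩
  have huD : ∀ i, u i ∈ D ∪ range s := fun i => hF (hu ▸ mem_range_self i)
  obtain ⟨y, hy⟩ := exists_uniform_ctbl (ι := Fin F.card → ℕ)
    (P := fun y g => (∀ i, y i ∈ C ∪ range a) ∧ BFR S A (D ∪ range s) (C ∪ range a) g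
      ((range fun i => (s i, a i)) ∪ range fun i => (u i, y i)))
    (fun y β γ hβ h => ⟨h.1, h.2.mono hβ⟩) (fun g hg => by
      obtain ⟨y, hy, h⟩ := BFR.forth_many F.card (hAC _ (add_lt_om1 hg (natCast_lt_om1 F.card)))
        u huD
      exact ⟨y, hy, h⟩)
  have hrs : range (Fin.append s u) = range s ∪ (F : Set M) := by
    rw [← hu]
    exact range_append s u
  have hra : range (Fin.append a y) = range a ∪ range y := range_append a y
  have hDs : D ∪ range (Fin.append s u) = D ∪ range s := by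
    rw [hrs]
    ext x
    constructor
    · rintro (hx | hx | hx)
      · exact Or.inl hx
      · exact Or.inr hx
      · exact hF hx
    · rintro (hx | hx)
      · exact Or.inl hx
      · exact Or.inr (Or.inl hx)
  have hCa : C ∪ range (Fin.append a y) = C ∪ range a := by
    rw [hra]
    ext x
    constructor
    · rintro (hx | hx | ⟨i, rfl⟩)
      · exact Or.inl hx
      · exact Or.inr hx
      · exact (hy 0 zero_lt_om1).1 i
    · rintro (hx | hx)
      · exact Or.inl hx
      · exact Or.inr (Or.inl hx)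
  have hPE : ∀ g < om1, PE S (Fin.append s u) D A (Fin.append a y) C g := by
    intro g hg
    unfold PE
    rw [hDs, hCa]
    refine BFR.anti ?_ (hy g hg).2
    rintro _ ⟨i, rfl⟩
    refine Fin.addCases (fun j => ?_) (fun j => ?_) i
    · simp only [Fin.append_left]
      exact Or.inl ⟨j, rfl⟩
    · simp only [Fin.append_right]
      exact Or.inr ⟨j, rfl⟩
  obtain ⟨B, hB1, hB2, hB3⟩ := tame_of_piece hPE
  rw [hDs] at hB1 hB3
  refine ⟨B, hB1, hB2, fun c hc => ?_⟩
  obtain ⟨d, hd, h⟩ := hB3 c hc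
  refine ⟨d, hd, fun g hg => BFR.anti ?_ (h g hg)⟩
  rintro _ (rfl | ⟨z, hz, rfl⟩)
  · exact mem_insert _ _
  · refine mem_insert_of_mem _ ⟨z, ?_, rfl⟩
    rw [hrs, union_comm]
    exact hz

variable {K : Set (L.Structure ℕ)} {S : L.Structure M}

/-- a component equivalent at the closure level to infinitely many components in a member of the
class is equivalent to a piece on the natural numbers -/
theorem wtame_of_infinite [∀ n, IsEmpty (L.Functions n)] (hS : Scat K) {d : Ordinal.{0}}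
    (hd : d < om1) (hcl : ClosedLev K d) (hlev : Lev K S) {n : ℕ} {s : Fin n → M}
    (hs : Function.Injective s) {x : M} (hx : x ∉ range s) {S' : L.Structure ℕ} (hS' : S' ∈ K)
    {s' : Fin n → ℕ} (T : Set (Set ℕ)) (hT : T.Infinite)
    (hTc : ∀ D ∈ T, IsCpt (gaif S') (range s') D)
    (hTd : ∀ D ∈ T, PE S s (cpt (gaif S) (range s) x) S' s' D d) :
    WTame S s (cpt (gaif S) (range s) x) := by
  by_contra hcon
  have hno : ∀ (A : L.Structure ℕ) (a : Fin n → ℕ) (C : Set ℕ), ∃ g < om1,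
      ¬ PE S s (cpt (gaif S) (range s) x) A a C g := by
    intro A a C
    by_contra h
    push Not at h
    exact hcon ⟨A, a, C, h⟩
  let St := {q : (L.Structure ℕ × (Fin n → ℕ) × Set ℕ) × Ordinal.{0} //
    q.2 < om1 ∧ d ≤ q.2 ∧ IsCpt (gaif q.1.1) (range q.1.2.1) q.1.2.2 ∧
      PE S s (cpt (gaif S) (range s) x) q.1.1 q.1.2.1 q.1.2.2 q.2}
  have hstep : ∀ q : St, ∃ q' : St, q.1.2 ≤ q'.1.2 ∧
      ¬ PE S s (cpt (gaif S) (range s) x) q.1.1.1 q.1.1.2.1 q.1.1.2.2 q'.1.2 := by
    rintro ⟨⟨⟨A, a, C⟩, g⟩, hg, hdg, hC, hPE⟩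
    obtain ⟨g', hg', hnot⟩ := hno A a C
    have hmax : max g g' < om1 := max_lt hg hg'
    obtain ⟨A', a', C', -, hC', hPE'⟩ := approx hlev s hx hmax
    exact ⟨⟨⟨⟨A', a', C'⟩, max g g'⟩, hmax, hdg.trans (le_max_left _ _), hC', hPE'⟩,
      le_max_left _ _, fun h => hnot (h.mono (le_max_right _ _))⟩
  have hinit : ∃ q : St, True := by
    obtain ⟨A', a', C', -, hC', hPE'⟩ := approx hlev s hx hd
    exact ⟨⟨⟨⟨A', a', C'⟩, d⟩, hd, le_rfl, hC', hPE'⟩, trivial⟩
  obtain ⟨q₀, -⟩ := hinit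
  choose nx hnx1 hnx2 using hstep
  let t : ℕ → St := fun k => k.rec q₀ (fun _ q => nx q)
  have ht : ∀ k, t (k + 1) = nx (t k) := fun k => rfl
  have hmono : ∀ k l, k ≤ l → (t k).1.2 ≤ (t l).1.2 := by
    intro k l hkl
    induction l, hkl using Nat.le_induction with
    | base => exact le_rfl
    | succ l _ ih =>
      rw [ht]
      exact ih.trans (hnx1 _)
  obtain ⟨g, hg, hle⟩ := exists_bound fun k => (t k).2.1
  have hlt' : ∀ m m', m < m' → ¬ PE (t m).1.1.1 (t m).1.1.2.1 (t m).1.1.2.2 (t m').1.1.1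
      (t m').1.1.2.1 (t m').1.1.2.2 g := by
    intro m m' hmm h
    have h1 : PE S s (cpt (gaif S) (range s) x) (t m').1.1.1 (t m').1.1.2.1 (t m').1.1.2.2
        (t (m + 1)).1.2 := (t m').2.2.2.2.mono (hmono _ _ hmm)
    have h2 := h1.trans (h.mono (hle (m + 1))).symm
    exact hnx2 (t m) h2
  obtain ⟨D0, hD0⟩ := hT.nonempty
  refine star hS hd hcl hS' ((hTd D0 hD0).injective hs) T hT hTc
    (fun m => (t m).1.1.1) (fun m => (t m).1.1.2.1) (fun m => (t m).1.1.2.2)
    (fun m => (t m).2.2.2.1) (fun D hD m => ?_) hg (fun m m' hmm h => ?_)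
  · exact (hTd D hD).symm.trans ((t m).2.2.2.2.mono (t m).2.2.1)
  · rcases lt_or_gt_of_ne hmm with h1 | h1
    · exact hlt' m m' h1 h
    · exact hlt' m' m h1 h.symm

/-- a partial self-map of a component extends by the identity outside the component -/
theorem extend_cpt {Q D : Set M} (hD : IsCpt (gaif S) Q D) {c d : M} (hc : c ∈ D) (hd : d ∈ D)
    {g : Ordinal.{0}} {F : Set M}
    (h : BFR S S (D ∪ Q) (D ∪ Q) g (insert (c, d) (dg ((F ∩ D) ∪ Q)))) :
    BFR S S univ univ g (insert (c, d) (dg (F ∪ Q))) := by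
  classical
  let I := {C : Set M // IsCpt (gaif S) Q C}
  have hB := blocks_cpt S Q
  let p : I → Set (M × M) := fun i => if i = ⟨D, hD⟩ then insert (c, d) (dg (F ∩ D)) else
    dg (F ∩ i.1)
  have key := BFR.blocks (g := g) hB hB (pQ := dg Q)
    (AtEq.anti (by
      rintro _ ⟨a, ha, rfl⟩
      exact mem_insert_of_mem _ ⟨a, Or.inr ha, rfl⟩) h.atEq)
    (by rintro _ ⟨a, ha, rfl⟩; exact ⟨ha, ha⟩)
    (fun x hx => ⟨x, ⟨x, hx, rfl⟩⟩) (fun x hx => ⟨x, ⟨x, hx, rfl⟩⟩) (p := p) (by
      intro i a ha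
      by_cases hi : i = ⟨D, hD⟩
      · subst hi
        simp only [p, if_true] at ha
        rcases ha with rfl | ⟨b, hb, rfl⟩
        · exact ⟨hc, hd⟩
        · exact ⟨hb.2, hb.2⟩
      · simp only [p, hi, if_false] at ha
        obtain ⟨b, hb, rfl⟩ := ha
        exact ⟨hb.2, hb.2⟩) (by
      intro i
      by_cases hi : i = ⟨D, hD⟩
      · subst hi
        simp only [p, if_true]
        refine BFR.anti ?_ h
        rintro a (⟨q, hq, rfl⟩ | rfl | ⟨b, hb, rfl⟩)
        · exact mem_insert_of_mem _ ⟨q, Or.inr hq, rfl⟩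
        · exact mem_insert _ _
        · exact mem_insert_of_mem _ ⟨b, Or.inl hb, rfl⟩
      · simp only [p, hi, if_false]
        refine BFR.refl S _ g ?_
        rintro _ (⟨a, ha, rfl⟩ | ⟨a, ha, rfl⟩)
        · exact ⟨Or.inr ha, rfl⟩
        · exact ⟨Or.inl ha.2, rfl⟩)
  refine BFR.anti ?_ key
  rintro _ (rfl | ⟨a, ha | ha, rfl⟩)
  · refine Or.inr (mem_iUnion.mpr ⟨⟨D, hD⟩, ?_⟩)
    simp only [p, if_true]
    exact mem_insert _ _
  · by_cases haQ : a ∈ Q
    · exact Or.inl ⟨a, haQ, rfl⟩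
    · refine Or.inr (mem_iUnion.mpr ⟨⟨cpt (gaif S) Q a, isCpt_cpt haQ⟩, ?_⟩)
      by_cases h1 : (⟨cpt (gaif S) Q a, isCpt_cpt haQ⟩ : I) = ⟨D, hD⟩
      · simp only [p, h1, if_true]
        refine mem_insert_of_mem _ ⟨a, ⟨ha, ?_⟩, rfl⟩
        have : cpt (gaif S) Q a = D := Subtype.ext_iff.mp h1
        rw [← this]
        exact Pool.Agent.Helper79.VC.mem_cpt_self a
      · simp only [p, h1, if_false]
        exact ⟨a, ⟨ha, Pool.Agent.Helper79.VC.mem_cpt_self a⟩, rfl⟩
  · exact Or.inl ⟨a, ha, rfl⟩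

end Pool.Agent.Helper6.VC
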